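import Mathlib
import Pool.Agent.Y143.MonDefs

/-!
# Euler factors at primes of good and of semistable reduction: definitions
-/

set_option autoImplicit false

open NumberField IsDedekindDomain Module

universe v

namespace Pool.Agent.K7.H9.SS

open Pool.Agent.Y143

section places

variable {F : Type} [Field F] [NumberField F]

/-- The place `v` of `F` lies above the prime number `p`. -/
def Above (v : HeightOneSpectrum (𝓞 F)) (p : ℕ) : Prop := (p : 𝓞 F) ∈ v.asIdeal

variable (F) in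
/-- The prime number `p` is unramified in `F`. -/
def UnramifiedIn (p : ℕ) : Prop :=
  ∀ v : HeightOneSpectrum (𝓞 F), Above v p → (p : 𝓞 F) ∉ v.asIdeal ^ 2

/-- The number of elements of the residue field of `v`. -/
noncomputable abbrev qq (v : HeightOneSpectrum (𝓞 F)) : ℕ := Ideal.absNorm v.asIdeal

/-- `Q` is a prime ideal above `v` of the ring of all algebraic integers. -/
def PrimeOver (Q : Ideal (𝓞 (AlgebraicClosure F))) (v : HeightOneSpectrum (𝓞 F)) : Prop :=
  Q.IsPrime ∧ Q.comap (algebraMap (𝓞 F) (𝓞 (AlgebraicClosure F))) = v.asIdeal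

/-- `g` is in the inertia group of `Q`. -/
def Inertia (Q : Ideal (𝓞 (AlgebraicClosure F))) (g : Gal(AlgebraicClosure F/F)) : Prop :=
  ∀ x : 𝓞 (AlgebraicClosure F), g • x - x ∈ Q

/-- `g` is an arithmetic Frobenius element of `Q`, for the residue field with `q` elements. -/
def Frobenius (q : ℕ) (Q : Ideal (𝓞 (AlgebraicClosure F))) (g : Gal(AlgebraicClosure F/F)) : Prop :=
  ∀ x : 𝓞 (AlgebraicClosure F), g • x - x ^ q ∈ Q

end places

section purity

variable {V : Type v} [AddCommGroup V] [Module ℂ V]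

/-- `(Φ, N)` is pure of weight `w`: the eigenvalues of `Φ` on the graded piece `M_s / M_(s - 1)` of the
monodromy filtration `M` of `N` have absolute value `q ^ ((w + s) / 2)`. -/
def IsPure (q : ℕ) (w : ℤ) (Φ N : Module.End ℂ V) : Prop :=
  ∃ M : ℤ → Submodule ℂ V, IsMonodromyFiltrationOn ⊤ N M ∧
    ∀ (s : ℤ) (α : ℂ) (x : V), x ∈ M s → x ∉ M (s - 1) → Φ x - α • x ∈ M (s - 1) →
      ‖α‖ ^ 2 = (q : ℝ) ^ (w + s)

/-- The subspace `S` is stable under `Φ`, and `R` is the multiset of the eigenvalues of `Φ` on `S`. -/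
def EigenvaluesOn [Module.Finite ℂ V] (Φ : Module.End ℂ V) (S : Submodule ℂ V) (R : Multiset ℂ) : Prop :=
  ∃ C : Module.End ℂ S, (∀ x, (C x : V) = Φ x) ∧ C.charpoly.roots = R

end purity

section local_

variable {F : Type} [Field F] [NumberField F] {𝕂 : Type} [NormedField 𝕂] {n : ℕ}

/-- The matrix of `g`. -/
noncomputable def mat (ρ : Gal(AlgebraicClosure F/F) →* GL (Fin n) 𝕂)
    (g : Gal(AlgebraicClosure F/F)) : Matrix (Fin n) (Fin n) 𝕂 := (ρ g : GL (Fin n) 𝕂)

/-- The logarithm of a unipotent matrix. -/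
noncomputable def logU (u : Matrix (Fin n) (Fin n) 𝕂) : Matrix (Fin n) (Fin n) 𝕂 :=
  ∑ k ∈ Finset.range n, ((-1 : 𝕂) ^ k / (k + 1)) • (u - 1) ^ (k + 1)

/-- The complexification of a matrix. -/
noncomputable def cx (j : 𝕂 →+* ℂ) (A : Matrix (Fin n) (Fin n) 𝕂) : Module.End ℂ (Fin n → ℂ) :=
  Matrix.toLin' (A.map j)

/-- `N` is the logarithm of an element of the inertia group of `Q`, and the vectors killed by `N` are
the invariants of the inertia group. -/
def IsLog (ρ : Gal(AlgebraicClosure F/F) →* GL (Fin n) 𝕂) (Q : Ideal (𝓞 (AlgebraicClosure F)))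
    (N : Matrix (Fin n) (Fin n) 𝕂) : Prop :=
  (∃ g, Inertia Q g ∧ N = logU (mat ρ g)) ∧
    ∀ x : Fin n → 𝕂, N.mulVec x = 0 ↔ ∀ g, Inertia Q g → (mat ρ g).mulVec x = x

/-- The inertia groups at `v` act by unipotent matrices; `Φ` is the matrix of a geometric Frobenius
element at `v`, and `N` is the monodromy operator. -/
structure IsMonodromy (ρ : Gal(AlgebraicClosure F/F) →* GL (Fin n) 𝕂)
    (v : HeightOneSpectrum (𝓞 F)) (Φ N : Matrix (Fin n) (Fin n) 𝕂) : Prop where
  unipotent : ∀ Q, PrimeOver Q v → ∀ g, Inertia Q g → IsNilpotent (mat ρ g - 1)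
  data : ∃ Q, PrimeOver Q v ∧ IsLog ρ Q N ∧ ∃ g, Frobenius (qq v) Q g ∧ Φ = mat ρ g⁻¹
  twisted : N * Φ = (qq v : 𝕂) • (Φ * N)

/-- The representation `ρ` is semistable at `v` and satisfies the monodromy-weight conjecture there,
with weight `w`, and `R` is the multiset of the inverse roots of the Euler factor at `v`: the
eigenvalues of the geometric Frobenius element on the invariants of the inertia group. They are
algebraic numbers. -/
def PureAt (ρ : Gal(AlgebraicClosure F/F) →* GL (Fin n) 𝕂) (j : 𝕂 →+* ℂ) (w : ℤ)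
    (v : HeightOneSpectrum (𝓞 F)) (R : Multiset ℂ) : Prop :=
  ∃ Φ N : Matrix (Fin n) (Fin n) 𝕂, IsMonodromy ρ v Φ N ∧ IsPure (qq v) w (cx j Φ) (cx j N) ∧
    EigenvaluesOn (cx j Φ) (LinearMap.ker (cx j N)) R ∧ ∀ a ∈ R, IsAlgebraic ℚ a

/-- `W` is stable under the Galois group. -/
def Stable (ρ : Gal(AlgebraicClosure F/F) →* GL (Fin n) 𝕂) (W : Submodule 𝕂 (Fin n → 𝕂)) :
    Prop := ∀ g, ∀ x ∈ W, (mat ρ g).mulVec x ∈ W

/-- Every stable subspace has a stable complement. -/
def Semisimple (ρ : Gal(AlgebraicClosure F/F) →* GL (Fin n) 𝕂) : Prop :=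
  ∀ W, Stable ρ W → ∃ W', Stable ρ W' ∧ IsCompl W W'

/-- There is a non-degenerate symmetric or alternating bilinear form, with matrix `J`, such that
`(gx, gy) = χ(g) ^ (-w) (x, y)` for the `ℓ`-adic cyclotomic character `χ`. -/
def Polarized (ℓ : ℕ) [Fact ℓ.Prime] [NormedAlgebra ℚ_[ℓ] 𝕂]
    (ρ : Gal(AlgebraicClosure F/F) →* GL (Fin n) 𝕂) (w : ℤ) : Prop :=
  ∃ J : Matrix (Fin n) (Fin n) 𝕂, J.det ≠ 0 ∧ (J.transpose = J ∨ J.transpose = -J) ∧
    ∀ g : Gal(AlgebraicClosure F/F), (mat ρ g).transpose * J * mat ρ g =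
      (algebraMap ℚ_[ℓ] 𝕂 (cyclotomicCharacter (AlgebraicClosure F) ℓ g : ℤ_[ℓ])) ^ (-w) • J

end local_

section relations

variable {F : Type} [Field F] [NumberField F]

/-- The determinant of the Frobenius element on the Jordan block of size `s` which ends with the
eigenvalue `b`: the product of `b`, `q b`, ..., `q ^ (s - 1) b`. -/
noncomputable def bl (q : ℕ) (b : ℂ) (s : ℕ) : ℂ := b ^ s * (q : ℂ) ^ (s * (s - 1) / 2)

/-- For each place `v` above `p` the multiset `B v` consists of pairs `(b, s)` of an eigenvalue `b` and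
a size `s ≥ 1` with `|b| = q ^ ((w + 1 - s) / 2)`; the sum of the sizes is `k`; the `b` together
with the complex conjugate numbers are elements of `R v` (with multiplicities); and the product over
all `v` of the determinants of the blocks is `p ^ (w * k * [F : ℚ] / 2)`, up to a root of unity. -/
structure IsRelation (R : HeightOneSpectrum (𝓞 F) → Multiset ℂ) (w : ℤ) (p k : ℕ)
    (B : HeightOneSpectrum (𝓞 F) → Multiset (ℂ × ℕ)) : Prop where
  weight : ∀ v, Above v p → ∀ x ∈ B v, 1 ≤ x.2 ∧ ‖x.1‖ ^ 2 = (qq v : ℝ) ^ (w + 1 - x.2)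
  size : ∀ v, Above v p → ((B v).map Prod.snd).sum = k
  roots : ∀ v, Above v p → (B v).map Prod.fst + (B v).map (fun x => starRingEnd ℂ x.1) ≤ R v
  product : ∃ M : ℕ, 0 < M ∧
    (∏ᶠ (v : HeightOneSpectrum (𝓞 F)) (_ : Above v p),
      ((B v).map fun x => bl (qq v) x.1 x.2).prod) ^ (2 * M) =
      (p : ℂ) ^ (w * k * finrank ℚ F * M)

/-- There is an isotropic relation of size `k` at `p` between the inverse roots of the Euler factors. -/
def IsotropicRelation (R : HeightOneSpectrum (𝓞 F) → Multiset ℂ) (w : ℤ) (p k : ℕ) : Prop :=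
  ∃ B : HeightOneSpectrum (𝓞 F) → Multiset (ℂ × ℕ), IsRelation R w p k B

end relations

end Pool.Agent.K7.H9.SS
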