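import Pool.Agent.K7.H9.SS.Glob

/-!
# Semisimplicity and irreducibility from Euler factors
-/

set_option autoImplicit false
set_option linter.unusedSectionVars false

open NumberField IsDedekindDomain Module Matrix

namespace Pool.Agent.K7.H9.SS

open Pool.Agent.Y115.R

variable {F : Type} [Field F] [NumberField F] (ℓ : ℕ) [hℓ : Fact ℓ.Prime]
  {𝕂 : Type} [NormedField 𝕂] [NormedAlgebra ℚ_[ℓ] 𝕂] [FiniteDimensional ℚ_[ℓ] 𝕂] {n : ℕ}
  (ρ : Gal(AlgebraicClosure F/F) →* GL (Fin n) 𝕂)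

/-- A stable subspace without a stable complement gives a stable isotropic subspace. -/
theorem exists_isotropic {w : ℤ} (hpol : Polarized ℓ ρ w) (hns : ¬ Semisimple ρ) :
    ∃ (J : Matrix (Fin n) (Fin n) 𝕂) (U : Submodule 𝕂 (Fin n → 𝕂)), IsPol ℓ ρ w J ∧ Stable ρ U ∧
      0 < finrank 𝕂 U ∧ 2 * finrank 𝕂 U ≤ n ∧ ∀ x ∈ U, ∀ y ∈ U, dotProduct x (J.mulVec y) = 0 := by
  obtain ⟨J, hJ, hsym, hpol⟩ := hpol
  unfold Semisimple at hns
  push Not at hns
  obtain ⟨W, hW, hno⟩ := hns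
  set b : LinearMap.BilinForm 𝕂 (Fin n → 𝕂) := Matrix.toBilin' J with hb
  have hbapp : ∀ x y, b x y = x ⬝ᵥ J *ᵥ y := fun x y => Matrix.toBilin'_apply' J x y
  have hnd : b.Nondegenerate := LinearMap.BilinForm.nondegenerate_toBilin'_of_det_ne_zero' J hJ
  have hswap : ∀ x y, b y x = b x y ∨ b y x = - b x y := by
    intro x y
    have h1 : b y x = x ⬝ᵥ Jᵀ *ᵥ y := by
      rw [hbapp, Matrix.dotProduct_mulVec x, Matrix.vecMul_transpose, dotProduct_comm]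
    rcases hsym with h | h
    · left
      rw [h1, h, hbapp]
    · right
      rw [h1, h, hbapp, neg_mulVec, dotProduct_neg]
  have hrefl : b.IsRefl := by
    intro x y h
    rcases hswap x y with h1 | h1
    · rw [h1, h]
    · rw [h1, h, neg_zero]
  have hmul : ∀ (g : Gal(AlgebraicClosure F/F)) x y, b ((mat ρ g).mulVec x) ((mat ρ g).mulVec y) =
      (algebraMap ℚ_[ℓ] 𝕂 (cyclotomicCharacter (AlgebraicClosure F) ℓ g : ℤ_[ℓ])) ^ (-w) *
        b x y := by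
    intro g x y
    rw [hbapp, hbapp, ← smul_eq_mul, ← dotProduct_smul, ← smul_mulVec,
      ← hpol g, ← Matrix.mulVec_mulVec, ← Matrix.mulVec_mulVec]
    rw [Matrix.dotProduct_mulVec x, Matrix.vecMul_transpose]
  have hinv : ∀ (g : Gal(AlgebraicClosure F/F)) y,
      (mat ρ g).mulVec ((mat ρ g⁻¹).mulVec y) = y := by
    intro g y
    rw [Matrix.mulVec_mulVec, ← mat_mul, mul_inv_cancel]
    unfold mat
    rw [map_one, Units.val_one, Matrix.one_mulVec]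
  have hstab : Stable ρ (b.orthogonal W) := by
    intro g x hx
    rw [LinearMap.BilinForm.mem_orthogonal_iff] at hx ⊢
    intro y hy
    have h1 : (mat ρ g⁻¹).mulVec y ∈ W := hW g⁻¹ y hy
    have h2 := hmul g ((mat ρ g⁻¹).mulVec y) x
    rw [hinv g y, hx _ h1, mul_zero] at h2
    exact h2
  have hcon : W ⊓ b.orthogonal W ≠ ⊥ := by
    intro h
    apply hno (b.orthogonal W) hstab
    rw [LinearMap.BilinForm.isCompl_orthogonal_iff_disjoint hrefl, disjoint_iff]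
    exact h
  have hiso : ∀ x ∈ W ⊓ b.orthogonal W, ∀ y ∈ W ⊓ b.orthogonal W, b x y = 0 :=
    fun x hx y hy => hy.2 x hx.1
  refine ⟨J, W ⊓ b.orthogonal W, ⟨hJ, hpol⟩, ?_, ?_, ?_, ?_⟩
  · intro g x hx
    exact ⟨hW g x hx.1, hstab g x hx.2⟩
  · rw [Nat.pos_iff_ne_zero]
    intro h
    exact hcon (Submodule.finrank_eq_zero.1 h)
  · have h1 : W ⊓ b.orthogonal W ≤ b.orthogonal (W ⊓ b.orthogonal W) :=
      fun x hx y hy => hiso y hy x hx
    have h2 := Submodule.finrank_mono h1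
    rw [LinearMap.BilinForm.finrank_orthogonal hnd, finrank_fin_fun] at h2
    have h3 : finrank 𝕂 (W ⊓ b.orthogonal W : Submodule 𝕂 (Fin n → 𝕂)) ≤ n := by
      have := Submodule.finrank_le (W ⊓ b.orthogonal W)
      rwa [finrank_fin_fun] at this
    omega
  · intro x hx y hy
    rw [← hbapp]
    exact hiso x hx y hy

lemma card_of_norm {s : Multiset ℂ} {B : Multiset (ℂ × ℕ)}
    (hB : B.map Prod.fst + B.map (fun x => starRingEnd ℂ x.1) ≤ s)
    (hs : ∀ a b : ℂ, ({a, b} : Multiset ℂ) ≤ s → ‖a‖ ≠ ‖b‖) : B = 0 := by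
  by_contra h0
  obtain ⟨x, hx⟩ := Multiset.exists_mem_of_ne_zero h0
  obtain ⟨B', rfl⟩ := Multiset.exists_cons_of_mem hx
  refine hs x.1 (starRingEnd ℂ x.1) (le_trans ?_ hB) (Complex.norm_conj x.1).symm
  rw [Multiset.map_cons, Multiset.map_cons, Multiset.insert_eq_cons,
    ← Multiset.singleton_add, ← Multiset.singleton_add x.1, ← Multiset.singleton_add]
  have h1 : ({x.1} : Multiset ℂ) + B'.map Prod.fst +
      (({starRingEnd ℂ x.1} : Multiset ℂ) + B'.map fun x => starRingEnd ℂ x.1) =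
      ({x.1} + {starRingEnd ℂ x.1}) + (B'.map Prod.fst + B'.map fun x => starRingEnd ℂ x.1) := by
    abel
  rw [h1]
  exact Multiset.le_add_right _ _

section

variable (hρ : Continuous ρ) (j : 𝕂 →+* ℂ) (w : ℤ) (R : HeightOneSpectrum (𝓞 F) → Multiset ℂ)
    (T : Set ℕ) (hT3 : 3 ≤ T.encard) (hT : ∀ p ∈ T, p.Prime ∧ p ≠ ℓ ∧ UnramifiedIn F p)
    (hR : ∀ p ∈ T, ∀ v, Above v p → PureAt ρ j w v (R v))
    (hgood : ∃ p ∈ T, ∀ v, Above v p → ∀ a ∈ R v, ‖a‖ ^ 2 = (qq v : ℝ) ^ w)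

include hρ hT3 hT hR hgood

/-- **Semisimplicity.** -/
theorem semisimple_of (hpol : Polarized ℓ ρ w)
    (hrel : (∀ k, 0 < k → 2 * k ≤ n → ∃ p ∈ T, ¬ IsotropicRelation R w p k) ∨
      ∃ p ∈ T, ∃ v, Above v p ∧ ∀ a b : ℂ, ({a, b} : Multiset ℂ) ≤ R v → ‖a‖ ≠ ‖b‖) :
    Semisimple ρ := by
  by_contra hns
  obtain ⟨J, U, hJ, hU, hk0, h2k, hiso⟩ := exists_isotropic ℓ ρ hpol hns
  obtain ⟨B, hB⟩ := exists_B ℓ ρ hρ j w R T hT3 hT hR hgood U hU
  rcases hrel with hrel | ⟨p, hp, v, hv, hs⟩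
  · obtain ⟨p, hp, hno⟩ := hrel _ hk0 h2k
    apply hno
    exact ⟨B, fun v hv => ((hB p hp).1 v hv).1, fun v hv => ((hB p hp).1 v hv).2.1,
      fun v hv => ((hB p hp).1 v hv).2.2.2 ⟨J, hJ, hiso⟩, (hB p hp).2⟩
  · obtain ⟨-, h2, -, h4⟩ := (hB p hp).1 v hv
    have h5 := card_of_norm (h4 ⟨J, hJ, hiso⟩) hs
    rw [h5, Multiset.map_zero, Multiset.sum_zero] at h2
    omega

end

end Pool.Agent.K7.H9.SS
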