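import Pool.Agent.Y115.Main

/-!
# A character of the Galois group: uniform exponents
-/

set_option autoImplicit false
set_option linter.unusedSectionVars false

namespace Pool.Agent.K7.H9.SS

open NumberField IsDedekindDomain Pool.Agent.W569.FM Pool.Agent.W571.FM Pool.Agent.Y115.CQ
open Pool.Agent.Y115.Chi Pool.Agent.Y115.T

variable {F : Type} [Field F] [NumberField F]

variable {ℓ : ℕ} [hℓ : Fact ℓ.Prime] {E : Type*} [NormedField E] [CompleteSpace E]
  [IsUltrametricDist E] [NormedAlgebra ℚ_[ℓ] E] [CharZero E] [FiniteDimensional ℚ_[ℓ] E]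

/-- **Relations between the Frobenius values of a character.** -/
theorem place_uniform (ψ : GF F →* Eˣ) (hψ : Continuous ψ) (T : Set ℕ) (hT3 : 3 ≤ T.encard)
    (hT : ∀ p ∈ T, p.Prime ∧ p ≠ ℓ ∧ Unram F p) (d : HeightOneSpectrum (𝓞 F) → Eˣ)
    (hd : ∀ p ∈ T, ∀ v : HeightOneSpectrum (𝓞 F), (p : 𝓞 F) ∈ v.asIdeal → ∀ Q : Ideal (OO F),
      Q.IsPrime → cm Q = v.asIdeal → (∀ τ, InInertia Q τ → ψ τ = 1) ∧
        ∀ φ, FrobAt (Ideal.absNorm v.asIdeal) Q φ → ψ φ = d v)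
    (halg : ∀ p ∈ T, ∀ v : HeightOneSpectrum (𝓞 F), (p : 𝓞 F) ∈ v.asIdeal →
      IsAlgebraic ℚ (d v : E)) :
    ∃ (N : ℕ) (a : ℤ), 0 < N ∧ ∀ p ∈ T, ∃ (S : Finset (HeightOneSpectrum (𝓞 F))) (M : ℕ), 0 < M ∧
      (∀ v, v ∈ S ↔ (p : 𝓞 F) ∈ v.asIdeal) ∧ (∏ v ∈ S, (d v : E)) ^ (M * N) = (p : E) ^ (a * M) ∧
      ∃ f : HeightOneSpectrum (𝓞 F) → ℕ, (∀ v ∈ S, Ideal.absNorm v.asIdeal = p ^ f v) ∧
        ∑ v ∈ S, f v = Module.finrank ℚ F := by
  classical
  set θ : GF ℚ →* Eˣ := MonoidHom.transfer (ψ.comp (cc F)) with hθ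
  have hθc : Continuous θ := continuous_transfer (isOpen_core F) _ (hψ.comp (continuous_cc F))
  obtain ⟨t, htT, ht3⟩ := Set.exists_subset_encard_eq hT3
  have htfin : t.Finite := Set.finite_of_encard_eq_coe ht3
  have htc : Nat.card t = 3 := by
    have h1 : Nat.card t = t.ncard := Nat.card_coe_set_eq t
    have h2 : (t.ncard : ℕ∞) = 3 := by rw [htfin.cast_ncard_eq]; exact ht3
    rw [h1]
    exact_mod_cast h2
  have hfin : Finite t := htfin
  obtain ⟨e⟩ : Nonempty (Fin 3 ≃ t) := by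
    rw [← htc]
    exact ⟨(Finite.equivFin t).symm⟩
  set l : Fin 3 → ℕ := fun i => (e i : ℕ) with hl
  have hlT : ∀ i, l i ∈ T := fun i => htT (e i).2
  have hchoose : ∀ p : ℕ, p.Prime → ∃ (P : Ideal (OO ℚ)) (σ : GF ℚ), P.IsMaximal ∧
    (p : OO ℚ) ∈ P ∧ FrobAt p P σ := fun p hp => exists_frobQ hp
  choose P σ hP hpP hσ using hchoose
  have key := char_main θ hθc l (fun i => (hT _ (hlT i)).1)
    (fun i j hij => e.injective (Subtype.ext hij)) (fun i => (hT _ (hlT i)).2.1)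
    (fun i => P (l i) (hT _ (hlT i)).1) (fun i => (hP _ _).isPrime) (fun i => hpP _ _)
    (fun i => σ (l i) (hT _ (hlT i)).1) (fun i => hσ _ _) (by
      intro i
      obtain ⟨M, S, hM, hS, heq, -⟩ := transfer_frob ψ (hT _ (hlT i)).1 (hP (l i) (hT _ (hlT i)).1)
        (hpP (l i) (hT _ (hlT i)).1) (hσ (l i) (hT _ (hlT i)).1) (hT _ (hlT i)).2.2 d
        (hd _ (hlT i))
      have h1 : IsAlgebraic ℚ ((θ (σ (l i) (hT _ (hlT i)).1) : E) ^ M) := by
        rw [← Units.val_pow_eq_pow_val, hθ, heq, Units.val_pow_eq_pow_val]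
        apply IsAlgebraic.pow
        rw [Units.coe_prod]
        have h2 : ∀ s : Finset (HeightOneSpectrum (𝓞 F)), (∀ v ∈ s, IsAlgebraic ℚ (d v : E)) →
            IsAlgebraic ℚ (∏ v ∈ s, (d v : E)) := by
          intro s
          induction s using Finset.induction_on with
          | empty =>
            intro _
            rw [Finset.prod_empty]
            exact isAlgebraic_one
          | insert v s hv ih =>
            intro h
            rw [Finset.prod_insert hv]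
            exact (h v (Finset.mem_insert_self v s)).mul
              (ih fun w hw => h w (Finset.mem_insert_of_mem hw))
        exact h2 S fun v hv => halg _ (hlT i) v ((hS v).1 hv)
      exact IsAlgebraic.of_pow hM h1)
  obtain ⟨N, a, hN, hNa⟩ := key
  refine ⟨N, a, hN, ?_⟩
  intro p hpT
  obtain ⟨hp, hne, hur⟩ := hT p hpT
  obtain ⟨M, S, hM, hS, heq, hf⟩ := transfer_frob ψ hp (hP p hp) (hpP p hp) (hσ p hp) hur d
    (hd p hpT)
  refine ⟨S, M, hM, hS, ?_, hf⟩
  have h1 : (∏ v ∈ S, d v) ^ (M * N) = (chiE ℓ E (σ p hp) ^ a) ^ M := by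
    rw [pow_mul, ← heq, ← pow_mul, mul_comm, pow_mul, ← hNa]
  have h2 : (chiE ℓ E (σ p hp) : E) = (p : E) := by
    rw [coe_chiE, chi_frob (hP p hp).isPrime (not_mem_of_ne hp hne (hP p hp).ne_top (hpP p hp))
      (hσ p hp)]
    simp
  have h3 := congrArg (fun u : Eˣ => (u : E)) h1
  simp only [Units.val_pow_eq_pow_val, Units.coe_prod, Units.val_zpow_eq_zpow_val] at h3
  rw [h3, h2, zpow_mul, zpow_natCast]

end Pool.Agent.K7.H9.SS
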