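import Pool.Agent.K7.H9.SS.Str

/-!
# Centred stable subspaces: the eigenvalues on the kernel of `N` determine the dimension and the
# determinant
-/

set_option autoImplicit false

open Module

universe v

namespace Pool.Agent.K7.H9.SS

open Pool.Agent.Y163.MW Pool.Agent.Y143 Pool.Agent.Y136.UB

section lift

variable {K : Type*} [Field K] {V : Type*} [AddCommGroup V] [Module K V]

/-- Homogeneous preimages. -/
lemma graded_lift {ι : Type*} {A B : ι → Submodule K V} {N : Module.End K V} {U : Submodule K V}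
    (hAB : ∀ i, ∀ z ∈ A i, N z ∈ B i) (hB : iSupIndep B) {z : V} (hz : z ∈ ⨆ i, U ⊓ A i) {j : ι}
    (hj : N z ∈ B j) : ∃ y ∈ U ⊓ A j, N y = N z := by
  classical
  rw [Submodule.mem_iSup_iff_exists_finsupp] at hz
  obtain ⟨g, hg, hgs⟩ := hz
  rw [iSupIndep_iff_finsetSum_eq_zero_imp_eq_zero] at hB
  refine ⟨g j, hg j, ?_⟩
  have h6 : ∑ i ∈ insert j g.support, (N (g i) - if i = j then N z else 0) = 0 := by
    rw [Finset.sum_sub_distrib, Finset.sum_ite_eq' _ _ _, if_pos (Finset.mem_insert_self _ _),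
      sub_eq_zero, ← map_sum]
    congr 1
    rw [← hgs, Finsupp.sum]
    refine (Finset.sum_subset (Finset.subset_insert _ _) fun i _ hi => ?_).symm
    exact Finsupp.notMem_support_iff.1 hi
  have h8 := hB _ _ (fun i hi => by
    refine Submodule.sub_mem _ (hAB i _ (Submodule.mem_inf.1 (hg i)).2) ?_
    split_ifs with h
    · rw [h]; exact hj
    · exact Submodule.zero_mem _) h6 j (Finset.mem_insert_self _ _)
  rw [if_pos rfl, sub_eq_zero] at h8
  exact h8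

end lift

variable {q : ℕ} {V : Type v} [AddCommGroup V] [Module ℂ V] [Module.Finite ℂ V]
  {Φ N : Module.End ℂ V}

lemma gen_lift (hq : 0 < q) (hN : Twisted (q : ℂ) Φ N) {U : Submodule ℂ V}
    (hU : ∀ x ∈ U, Φ x ∈ U) {β : ℂ} {x : V}
    (hx : x ∈ U.map N ⊓ Φ.maxGenEigenspace (β / q)) : ∃ z ∈ U ⊓ Φ.maxGenEigenspace β, N z = x := by
  have hq0 : (q : ℂ) ≠ 0 := Nat.cast_ne_zero.2 (by omega)
  obtain ⟨⟨z, hz, rfl⟩, hx2⟩ := hx
  refine graded_lift (A := fun α => Φ.maxGenEigenspace α)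
    (B := fun α => Φ.maxGenEigenspace (α / q)) (fun α z hz => N_gen hq hN hz) ?_ ?_ hx2
  · refine (Module.End.independent_maxGenEigenspace Φ).comp (f := fun α : ℂ => α / q) ?_
    intro a b h
    exact (div_left_inj' hq0).1 h
  · have h1 := Submodule.eq_iSup_inf_genEigenspace (p := U) (f := Φ) ⊤ hU
      (Module.End.iSup_maxGenEigenspace_eq_top Φ)
    rw [h1] at hz
    exact hz

lemma nw_lift (hq : 1 < q) (hF : HasNW Φ q) (hN : Twisted (q : ℂ) Φ N) {U : Submodule ℂ V}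
    (hU : ∀ x ∈ U, Φ x ∈ U) {c : ℤ} {x : V}
    (hx : x ∈ U.map N ⊓ nw Φ q (c - 2)) : ∃ z ∈ U ⊓ nw Φ q c, N z = x := by
  obtain ⟨⟨z, hz, rfl⟩, hx2⟩ := hx
  refine graded_lift (A := fun c => nw Φ q c) (B := fun c => nw Φ q (c - 2))
    (fun c z hz => N_nw (by omega) hN hz) ?_ ?_ hx2
  · refine (indep_nw hq hF).comp (f := fun c : ℤ => c - 2) ?_
    intro a b h
    have h' : a - 2 = b - 2 := h
    omega
  · rw [stable_nw hF hU]
    exact hz

lemma map_stable (hq : 0 < q) (hN : Twisted (q : ℂ) Φ N) {U : Submodule ℂ V}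
    (hU : ∀ x ∈ U, Φ x ∈ U) : ∀ x ∈ U.map N, Φ x ∈ U.map N := by
  have hq0 : (q : ℂ) ≠ 0 := Nat.cast_ne_zero.2 (by omega)
  rintro _ ⟨x, hx, rfl⟩
  refine ⟨(q : ℂ)⁻¹ • Φ x, Submodule.smul_mem _ _ (hU x hx), ?_⟩
  rw [map_smul, hN, smul_smul, inv_mul_cancel₀ hq0, one_smul]

lemma ker_stable (hN : Twisted (q : ℂ) Φ N) {U : Submodule ℂ V}
    (hU : ∀ x ∈ U, Φ x ∈ U) : ∀ x ∈ LinearMap.ker N ⊓ U, Φ x ∈ LinearMap.ker N ⊓ U := by
  rintro x ⟨h1, h2⟩
  refine ⟨?_, hU x h2⟩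
  have h1' : N x = 0 := h1
  rw [SetLike.mem_coe, LinearMap.mem_ker, hN, h1', map_zero, smul_zero]

/-- The eigenvalues on `U`, on the kernel of `N` and on the image of `N`. -/
lemma rt_split (hq : 0 < q) (hN : Twisted (q : ℂ) Φ N) {U : Submodule ℂ V}
    (hU : ∀ x ∈ U, Φ x ∈ U) :
    rt Φ U = rt Φ (LinearMap.ker N ⊓ U) + (rt Φ (U.map N)).map fun α => α * (q : ℂ) := by
  classical
  have hq0 : (q : ℂ) ≠ 0 := Nat.cast_ne_zero.2 (by omega)
  ext α
  have h1 : ((rt Φ (U.map N)).map fun α => α * (q : ℂ)).count α = (rt Φ (U.map N)).count (α / q) := by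
    have h2 : α = (fun β : ℂ => β * q) (α / q) := (div_mul_cancel₀ α hq0).symm
    conv_lhs => rw [h2]
    exact Multiset.count_map_eq_count' _ _ (fun a b h => (mul_left_inj' hq0).1 h) _
  rw [Multiset.count_add, h1, count_rt hU, count_rt (ker_stable hN hU),
    count_rt (map_stable hq hN hU)]
  -- rank-nullity on `U ⊓ gen α`
  have h3 := LinearMap.finrank_range_add_finrank_ker
    (N.domRestrict (U ⊓ Φ.maxGenEigenspace α : Submodule ℂ V))
  have h4 : LinearMap.range (N.domRestrict (U ⊓ Φ.maxGenEigenspace α : Submodule ℂ V)) =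
      U.map N ⊓ Φ.maxGenEigenspace (α / q) := by
    ext y
    constructor
    · rintro ⟨x, rfl⟩
      exact ⟨⟨x, x.2.1, rfl⟩, N_gen hq hN x.2.2⟩
    · intro hy
      obtain ⟨z, hz, rfl⟩ := gen_lift hq hN hU hy
      exact ⟨⟨z, hz⟩, rfl⟩
  have h5 : finrank ℂ (LinearMap.ker (N.domRestrict (U ⊓ Φ.maxGenEigenspace α : Submodule ℂ V))) =
      finrank ℂ (LinearMap.ker N ⊓ U ⊓ Φ.maxGenEigenspace α : Submodule ℂ V) := by
    have h6 : LinearMap.ker N ⊓ U ⊓ Φ.maxGenEigenspace α =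
        (LinearMap.ker (N.domRestrict (U ⊓ Φ.maxGenEigenspace α : Submodule ℂ V))).map
          (U ⊓ Φ.maxGenEigenspace α : Submodule ℂ V).subtype := by
      ext x
      constructor
      · rintro ⟨⟨h1, h2⟩, h3⟩
        exact ⟨⟨x, h2, h3⟩, h1, rfl⟩
      · rintro ⟨y, hy, rfl⟩
        exact ⟨⟨hy, y.2.1⟩, y.2.2⟩
    rw [h6]
    exact (LinearEquiv.finrank_eq (Submodule.equivMapOfInjective _ (Submodule.injective_subtype _) _))
  rw [h4, h5] at h3
  omega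

/-- `U` is centred at `w`. -/
def CenU (Φ N : Module.End ℂ V) (q : ℕ) (w : ℤ) (U : Submodule ℂ V) : Prop :=
  Centred (fun c => U ⊓ nw Φ q (w + c)) N

lemma CenU.map (hq : 1 < q) (hF : HasNW Φ q) (hN : Twisted (q : ℂ) Φ N) {U : Submodule ℂ V}
    (hU : ∀ x ∈ U, Φ x ∈ U) (hUN : ∀ x ∈ U, N x ∈ U) {w : ℤ} (h : CenU Φ N q w U) :
    CenU Φ N q (w - 1) (U.map N) := by
  have hpow : ∀ (a : ℕ) (x : V), (N ^ a) (N x) = (N ^ (a + 1)) x := by
    intro a x
    rw [pow_succ, Module.End.mul_apply]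
  intro a
  constructor
  · rintro x ⟨hx1, hx2⟩ h0
    have h1 : x ∈ U.map N ⊓ nw Φ q (w + (a + 1 : ℕ) - 2) := by
      refine ⟨hx1, ?_⟩
      have h2 : x ∈ nw Φ q (w - 1 + a) := hx2
      rwa [show w - 1 + (a : ℤ) = w + ((a + 1 : ℕ) : ℤ) - 2 by push_cast; ring] at h2
    obtain ⟨z, hz, rfl⟩ := nw_lift hq hF hN hU h1
    rw [hpow] at h0
    have h2 : z = 0 := (h (a + 1)).1 z hz h0
    rw [h2, map_zero]
  · rintro y ⟨hy1, hy2⟩
    have h1 : y ∈ U ⊓ nw Φ q (w + -((a + 1 : ℕ) : ℤ)) := by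
      refine ⟨?_, ?_⟩
      · obtain ⟨z, hz, rfl⟩ := hy1
        exact hUN z hz
      · have h2 : y ∈ nw Φ q (w - 1 + -(a : ℤ)) := hy2
        rwa [show w - 1 + -(a : ℤ) = w + -((a + 1 : ℕ) : ℤ) by push_cast; ring] at h2
    obtain ⟨z, hz, hzy⟩ := (h (a + 1)).2 y h1
    refine ⟨N z, ⟨⟨z, hz.1, rfl⟩, ?_⟩, ?_⟩
    · have h2 := N_nw (by omega) hN hz.2
      change N z ∈ nw Φ q (w - 1 + a)
      rwa [show w - 1 + (a : ℤ) = w + ((a + 1 : ℕ) : ℤ) - 2 by push_cast; ring]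
    · rw [hpow]
      exact hzy

/-- The weights on the kernel of `N`. -/
lemma CenU.ker_le (hq : 1 < q) {U : Submodule ℂ V} {w : ℤ}
    (h : CenU Φ N q w U) {c : ℤ} (hc : w < c) {x : V} (hx : x ∈ U) (hxc : x ∈ nw Φ q c)
    (h0 : N x = 0) : x = 0 := by
  have h1 : 0 < (c - w).toNat := by omega
  refine (h (c - w).toNat).1 x ⟨hx, ?_⟩ ?_
  · change x ∈ nw Φ q (w + ((c - w).toNat : ℤ))
    rwa [show w + ((c - w).toNat : ℤ) = c by omega]
  · obtain ⟨k, hk⟩ := Nat.exists_eq_succ_of_ne_zero h1.ne'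
    rw [hk, pow_succ, Module.End.mul_apply, h0, map_zero]

lemma CenU.mem_map {U : Submodule ℂ V} (hUN : ∀ x ∈ U, N x ∈ U) {w : ℤ}
    (h : CenU Φ N q w U) {c : ℤ} (hc : c < w) {x : V} (hx : x ∈ U) (hxc : x ∈ nw Φ q c) :
    x ∈ U.map N := by
  have h1 : 0 < (w - c).toNat := by omega
  obtain ⟨z, hz, hzx⟩ := (h (w - c).toNat).2 x ⟨hx, by
    change x ∈ nw Φ q (w + -((w - c).toNat : ℤ))
    rwa [show w + -((w - c).toNat : ℤ) = c by omega]⟩
  obtain ⟨k, hk⟩ := Nat.exists_eq_succ_of_ne_zero h1.ne'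
  rw [hk, pow_succ', Module.End.mul_apply] at hzx
  exact ⟨(N ^ k) z, pow_stable hUN k z hz.1, hzx⟩

lemma CenU.rt_ker (hq : 1 < q) (hF : HasNW Φ q) (hN : Twisted (q : ℂ) Φ N) {U : Submodule ℂ V}
    (hU : ∀ x ∈ U, Φ x ∈ U) (hUN : ∀ x ∈ U, N x ∈ U) {w : ℤ} (h : CenU Φ N q w U) :
    (∀ b ∈ rt Φ (LinearMap.ker N ⊓ U), Wt q (wf q b) b ∧ wf q b ≤ w) ∧
    rt Φ (LinearMap.ker N ⊓ U.map N) =
      (rt Φ (LinearMap.ker N ⊓ U)).filter fun b => wf q b < w := by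
  classical
  have hq' : 0 < q := by omega
  have hK := ker_stable hN hU
  have hK' := ker_stable hN (map_stable hq' hN hU)
  have hm := h.map hq hF hN hU hUN
  refine ⟨fun b hb => ?_, ?_⟩
  · obtain ⟨c, hc⟩ := wt_of_mem hF hK hb
    rw [wf_eq hq hc]
    refine ⟨hc, ?_⟩
    by_contra hlt
    obtain ⟨x, hx, h0, hx'⟩ := mem_rt hK hb
    refine h0 (h.ker_le hq (not_le.1 hlt) hx.2 ?_ hx.1)
    refine gen_le_nw hc (mem_gen.2 ⟨1, ?_⟩)
    rw [pow_one, LinearMap.sub_apply, Module.algebraMap_end_apply, hx', sub_self]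
  · ext α
    by_cases hα : ∃ c, Wt q c α
    · obtain ⟨c, hc⟩ := hα
      by_cases hlt : c < w
      · rw [Multiset.count_filter_of_pos (by rw [wf_eq hq hc]; exact hlt), count_rt hK', count_rt hK]
        have h1 : LinearMap.ker N ⊓ U.map N ⊓ Φ.maxGenEigenspace α =
            LinearMap.ker N ⊓ U ⊓ Φ.maxGenEigenspace α := by
          ext x
          constructor
          · rintro ⟨⟨h1, ⟨z, hz, rfl⟩⟩, h3⟩
            exact ⟨⟨h1, hUN z hz⟩, h3⟩
          · rintro ⟨⟨h1, h2⟩, h3⟩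
            exact ⟨⟨h1, h.mem_map hUN hlt h2 (gen_le_nw hc h3)⟩, h3⟩
        rw [h1]
      · rw [Multiset.count_filter_of_neg (by rw [wf_eq hq hc]; exact hlt), count_rt hK']
        have h1 : LinearMap.ker N ⊓ U.map N ⊓ Φ.maxGenEigenspace α = ⊥ := by
          rw [Submodule.eq_bot_iff]
          rintro x ⟨⟨h1, h2⟩, h3⟩
          exact hm.ker_le hq (by omega : w - 1 < c) h2 (gen_le_nw hc h3) h1
        rw [h1, finrank_bot]
    · have h1 : Φ.maxGenEigenspace α = ⊥ := gen_bot hF hα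
      have h2 : (rt Φ (LinearMap.ker N ⊓ U)).count α = 0 := by
        rw [count_rt hK, h1, inf_bot_eq, finrank_bot]
      rw [count_rt hK', h1, inf_bot_eq, finrank_bot]
      symm
      rw [← Nat.le_zero, ← h2]
      exact Multiset.count_le_of_le _ (Multiset.filter_le _ _)

end Pool.Agent.K7.H9.SS
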