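import Pool.Agent.K7.H9.SS.Cen

/-!
# The dimension and the determinant of a centred subspace
-/

set_option autoImplicit false

open Module

universe v

namespace Pool.Agent.K7.H9.SS

open Pool.Agent.Y163.MW Pool.Agent.Y143 Pool.Agent.Y136.UB

/-- The size of the Jordan block of `N` which belongs to the eigenvalue `b` on the kernel of `N`. -/
noncomputable def sz (q : ℕ) (w : ℤ) (b : ℂ) : ℕ := (w + 1 - wf q b).toNat

lemma bl_succ (q : ℕ) (b : ℂ) (s : ℕ) : bl q b (s + 1) = b * ((q : ℂ) ^ s * bl q b s) := by
  unfold bl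
  have h : (s + 1) * (s + 1 - 1) / 2 = s + s * (s - 1) / 2 := by
    rw [Nat.add_sub_cancel]
    rcases s with _ | s
    · rfl
    · rw [Nat.add_sub_cancel]
      have h1 : (s + 1 + 1) * (s + 1) = (s + 1) * s + 2 * (s + 1) := by ring
      rw [h1, Nat.add_mul_div_left _ _ (by norm_num : 0 < 2), add_comm]
  rw [h, pow_add, pow_succ]
  ring

lemma prod_succ (q : ℕ) (s : ℂ → ℕ) (B : Multiset ℂ) :
    (B.map fun b => bl q b (s b + 1)).prod =
      B.prod * ((q : ℂ) ^ (B.map s).sum * (B.map fun b => bl q b (s b)).prod) := by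
  induction B using Multiset.induction_on with
  | empty => simp
  | cons b B ih =>
    rw [Multiset.map_cons, Multiset.prod_cons, ih, Multiset.prod_cons, Multiset.map_cons,
      Multiset.sum_cons, Multiset.map_cons, Multiset.prod_cons, bl_succ, pow_add]
    ring

variable {q : ℕ} {V : Type v} [AddCommGroup V] [Module ℂ V] [Module.Finite ℂ V]
  {Φ N : Module.End ℂ V}

lemma strings (hq : 1 < q) (hF : HasNW Φ q) (hN : Twisted (q : ℂ) Φ N) (hnil : IsNilpotent N)
    (n : ℕ) : ∀ (U : Submodule ℂ V) (w : ℤ), finrank ℂ U ≤ n → (∀ x ∈ U, Φ x ∈ U) →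
      (∀ x ∈ U, N x ∈ U) → CenU Φ N q w U →
      finrank ℂ U = ((rt Φ (LinearMap.ker N ⊓ U)).map (sz q w)).sum ∧
        (rt Φ U).prod = ((rt Φ (LinearMap.ker N ⊓ U)).map fun b => bl q b (sz q w b)).prod := by
  classical
  induction n with
  | zero =>
    intro U w hn hU hUN _
    have h0 : Multiset.card (rt Φ U) = 0 := by rw [card_rt hU]; omega
    have h1 : rt Φ U = 0 := Multiset.card_eq_zero.1 h0
    have h2 : rt Φ (LinearMap.ker N ⊓ U) = 0 := by
      have := rt_le (ker_stable hN hU) hU inf_le_right
      rw [h1] at this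
      exact Multiset.le_zero.1 this
    rw [h1, h2]
    refine ⟨?_, ?_⟩
    · simp only [Multiset.map_zero, Multiset.sum_zero]
      omega
    · simp
  | succ n ih =>
    intro U w hn hU hUN h
    by_cases hU0 : U = ⊥
    · refine ih U w ?_ hU hUN h
      rw [hU0, finrank_bot]
      exact Nat.zero_le _
    have hq' : 0 < q := by omega
    have hK := ker_stable hN hU
    have hmap := map_stable hq' hN hU
    have hmapN : ∀ x ∈ U.map N, N x ∈ U.map N := by
      rintro _ ⟨x, hx, rfl⟩
      exact ⟨N x, hUN x hx, rfl⟩
    have hsplit := rt_split hq' hN hU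
    have hcard : finrank ℂ U = Multiset.card (rt Φ (LinearMap.ker N ⊓ U)) + finrank ℂ (U.map N) := by
      rw [← card_rt hU, hsplit, Multiset.card_add, Multiset.card_map, card_rt hmap]
    have hpos : 0 < Multiset.card (rt Φ (LinearMap.ker N ⊓ U)) := by
      rw [card_rt hK]
      by_contra h0
      have h1 : LinearMap.ker N ⊓ U = ⊥ := Submodule.finrank_eq_zero.1 (by omega)
      apply hU0
      rw [Submodule.eq_bot_iff]
      obtain ⟨k, hk⟩ := hnil
      have h2 : ∀ (k : ℕ) (x : V), x ∈ U → (N ^ k) x = 0 → x = 0 := by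
        intro k
        induction k with
        | zero => intro x _ h0; simpa using h0
        | succ k ih =>
          intro x hx h0
          rw [pow_succ, Module.End.mul_apply] at h0
          have h3 := ih (N x) (hUN x hx) h0
          have h4 : x ∈ LinearMap.ker N ⊓ U := ⟨h3, hx⟩
          rwa [h1, Submodule.mem_bot] at h4
      intro x hx
      refine h2 k x hx ?_
      rw [hk]
      rfl
    obtain ⟨ih1, ih2⟩ := ih (U.map N) (w - 1) (by omega) hmap hmapN (h.map hq hF hN hU hUN)
    obtain ⟨hw, hfil⟩ := h.rt_ker hq hF hN hU hUN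
    rw [hfil] at ih1 ih2
    set B := rt Φ (LinearMap.ker N ⊓ U) with hB
    set B₁ := B.filter fun b => wf q b < w with hB1
    set B₂ := B.filter fun b => ¬ wf q b < w with hB2
    have hBB : B = B₁ + B₂ := (Multiset.filter_add_not _ _).symm
    have hs1 : ∀ b ∈ B₁, sz q w b = sz q (w - 1) b + 1 := by
      intro b hb
      have h1 := (Multiset.mem_filter.1 hb).2
      unfold sz
      omega
    have hs2 : ∀ b ∈ B₂, sz q w b = 1 := by
      intro b hb
      have h1 := (Multiset.mem_filter.1 hb).2
      have h2 := (hw b (Multiset.mem_filter.1 hb).1).2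
      unfold sz
      omega
    constructor
    · rw [hcard, ih1]
      conv_rhs => rw [hBB, Multiset.map_add, Multiset.sum_add, Multiset.map_congr rfl hs1,
        Multiset.map_congr rfl hs2, Multiset.sum_map_add]
      conv_lhs => rw [hBB, Multiset.card_add]
      simp only [Multiset.map_const', Multiset.sum_replicate, smul_eq_mul, mul_one]
      omega
    · rw [hsplit, Multiset.prod_add, Multiset.prod_map_mul, Multiset.map_id', Multiset.map_const',
        Multiset.prod_replicate, card_rt hmap, ih1, ih2]
      conv_rhs => rw [hBB, Multiset.map_add, Multiset.prod_add]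
      have e1 : (B₁.map fun b => bl q b (sz q w b)).prod =
          (B₁.map fun b => bl q b (sz q (w - 1) b + 1)).prod := by
        congr 1
        exact Multiset.map_congr rfl fun b hb => by rw [hs1 b hb]
      have e2 : (B₂.map fun b => bl q b (sz q w b)).prod = B₂.prod := by
        congr 1
        conv_rhs => rw [← Multiset.map_id B₂]
        refine Multiset.map_congr rfl fun b hb => ?_
        rw [hs2 b hb]
        simp [bl]
      rw [e1, e2, prod_succ]
      conv_lhs => rw [hBB, Multiset.prod_add]
      ring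

end Pool.Agent.K7.H9.SS
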