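import Pool.Agent.K7.H9.SS.Mon

/-!
# Stable subspaces and relations between the roots of the Euler factors
-/

set_option autoImplicit false
set_option linter.unusedSectionVars false

open NumberField IsDedekindDomain Module

universe v

namespace Pool.Agent.K7.H9.SS

open Pool.Agent.Y143 Pool.Agent.Y163.MW Pool.Agent.Y136.UB

section blocks

variable {V : Type v} [AddCommGroup V] [Module ℂ V] [Module.Finite ℂ V]

/-- What is used about one place. -/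
structure LocalOK (q : ℕ) (w : ℤ) (Φ N : Module.End ℂ V) (R : Multiset ℂ)
    (U : Submodule ℂ V) : Prop where
  hq : 1 < q
  hF : HasNW Φ q
  hN : Twisted (q : ℂ) Φ N
  hnil : IsNilpotent N
  hC : Centred (fun c => nw Φ q (w + c)) N
  hU : ∀ x ∈ U, Φ x ∈ U
  hUN : ∀ x ∈ U, N x ∈ U
  hR : R = rt Φ (LinearMap.ker N)
  halg : ∀ a ∈ R, IsAlgebraic ℚ a

/-- The blocks. -/
noncomputable def blocks (q : ℕ) (w : ℤ) (Φ N : Module.End ℂ V) (U : Submodule ℂ V) :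
    Multiset (ℂ × ℕ) := (rt Φ (LinearMap.ker N ⊓ U)).map fun b => (b, sz q w b)

variable {q : ℕ} {w : ℤ} {Φ N : Module.End ℂ V} {R : Multiset ℂ} {U : Submodule ℂ V}

lemma LocalOK.ker_st (h : LocalOK q w Φ N R U) :
    ∀ x ∈ LinearMap.ker N, Φ x ∈ LinearMap.ker N := by
  intro x hx
  rw [LinearMap.mem_ker] at hx ⊢
  rw [h.hN x, hx, map_zero, smul_zero]

lemma LocalOK.ex_le (h : LocalOK q w Φ N R U) : ex Φ q w U ≤ 0 :=
  (sum_wt h.hq h.hF h.hN h.hC h.hU h.hUN).1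

lemma LocalOK.cen (h : LocalOK q w Φ N R U) (h0 : ex Φ q w U = 0) : CenU Φ N q w U :=
  cenU_of_sum h.hq h.hF h.hN h.hC h.hU h.hUN h0

lemma LocalOK.fst (h : LocalOK q w Φ N R U) :
    (blocks q w Φ N U).map Prod.fst = rt Φ (LinearMap.ker N ⊓ U) := by
  unfold blocks
  rw [Multiset.map_map]
  exact Multiset.map_id' _

lemma LocalOK.fst_le (h : LocalOK q w Φ N R U) : (blocks q w Φ N U).map Prod.fst ≤ R := by
  classical
  rw [h.fst, h.hR]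
  exact rt_le (ker_stable h.hN h.hU) h.ker_st inf_le_left

lemma LocalOK.weight (h : LocalOK q w Φ N R U) (h0 : ex Φ q w U = 0) :
    ∀ x ∈ blocks q w Φ N U, 1 ≤ x.2 ∧ ‖x.1‖ ^ 2 = (q : ℝ) ^ (w + 1 - x.2) := by
  intro x hx
  unfold blocks at hx
  rw [Multiset.mem_map] at hx
  obtain ⟨b, hb, rfl⟩ := hx
  obtain ⟨h1, h2⟩ := (CenU.rt_ker h.hq h.hF h.hN h.hU h.hUN (h.cen h0)).1 b hb
  have h3 : ((sz q w b : ℕ) : ℤ) = w + 1 - wf q b := by
    unfold sz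
    rw [Int.toNat_of_nonneg (by omega)]
  refine ⟨by change 1 ≤ sz q w b; omega, ?_⟩
  change ‖b‖ ^ 2 = (q : ℝ) ^ (w + 1 - ((sz q w b : ℕ) : ℤ))
  rw [h3, show w + 1 - (w + 1 - wf q b) = wf q b by ring]
  exact h1

lemma LocalOK.size (h : LocalOK q w Φ N R U) (h0 : ex Φ q w U = 0) :
    ((blocks q w Φ N U).map Prod.snd).sum = finrank ℂ U := by
  rw [(strings h.hq h.hF h.hN h.hnil _ U w le_rfl h.hU h.hUN (h.cen h0)).1]
  unfold blocks
  rw [Multiset.map_map]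
  rfl

lemma LocalOK.prod (h : LocalOK q w Φ N R U) (h0 : ex Φ q w U = 0) :
    (rt Φ U).prod = ((blocks q w Φ N U).map fun x => bl q x.1 x.2).prod := by
  rw [(strings h.hq h.hF h.hN h.hnil _ U w le_rfl h.hU h.hUN (h.cen h0)).2]
  unfold blocks
  rw [Multiset.map_map]
  rfl

lemma LocalOK.good (h : LocalOK q w Φ N R U) (hg : ∀ a ∈ R, ‖a‖ ^ 2 = (q : ℝ) ^ w) :
    ex Φ q w U = 0 :=
  good_wt h.hq h.hF h.hN h.hnil h.hC (fun a ha => hg a (by rw [h.hR]; exact ha)) h.hU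

lemma LocalOK.iso (h : LocalOK q w Φ N R U) (h0 : ex Φ q w U = 0)
    {b : V →ₗ[ℂ] V →ₗ[ℂ] ℂ} (hbnd : ∀ x, (∀ y, b x y = 0) → x = 0)
    (hb : ∀ x y, b (Φ x) (Φ y) = (q : ℂ) ^ w * b x y)
    (hker : ∀ x z, N x = 0 → b x (N z) = 0)
    (hiso : ∀ x ∈ U, ∀ y ∈ U, b x y = 0) :
    (blocks q w Φ N U).map Prod.fst + (blocks q w Φ N U).map (fun x => starRingEnd ℂ x.1) ≤ R := by
  have h1 := isotropic_ker h.hq h.hF h.hN h.hC h.hU (h.cen h0) hbnd hb hker hiso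
  have h2 : (blocks q w Φ N U).map (fun x => starRingEnd ℂ x.1) =
      (rt Φ (LinearMap.ker N ⊓ U)).map (starRingEnd ℂ) := by
    unfold blocks
    rw [Multiset.map_map]
    rfl
  rw [h.fst, h2, h.hR]
  exact h1

end blocks

section place

variable {F : Type} [Field F] [NumberField F] {ℓ : ℕ} [hℓ : Fact ℓ.Prime]
  {𝕂 : Type} [NormedField 𝕂] [NormedAlgebra ℚ_[ℓ] 𝕂] {n : ℕ}
  {ρ : Gal(AlgebraicClosure F/F) →* GL (Fin n) 𝕂}

open Pool.Agent.W569.FM Pool.Agent.W571.FM Pool.Agent.Y115.Chi Pool.Agent.Y115.T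
  Pool.Agent.Y115.R

lemma one_lt_qq (v : HeightOneSpectrum (𝓞 F)) : 1 < qq v := by
  have h0 : qq v ≠ 0 := by
    rw [Ne, Ideal.absNorm_eq_zero_iff]
    exact v.ne_bot
  have h1 : qq v ≠ 1 := by
    rw [Ne, Ideal.absNorm_eq_one_iff]
    exact v.isPrime.ne_top
  omega

/-- Everything at one place. -/
theorem local_all {j : 𝕂 →+* ℂ} {w : ℤ} {v : HeightOneSpectrum (𝓞 F)} {R : Multiset ℂ}
    (h : PureAt ρ j w v R) : ∃ (Φ N : Matrix (Fin n) (Fin n) 𝕂) (Q₀ : Ideal (OO F)) (σ₀ g : GF F),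
      IsPure (qq v) w (cx j Φ) (cx j N) ∧ PrimeOver Q₀ v ∧ Frobenius (qq v) Q₀ σ₀ ∧
      Inertia Q₀ g ∧ Φ = mat ρ σ₀⁻¹ ∧ N = logU (mat ρ g) ∧
      (∀ Q, PrimeOver Q v → ∀ g, Inertia Q g → IsNilpotent (mat ρ g - 1)) ∧
      (∀ x, N.mulVec x = 0 → (mat ρ g).mulVec x = x) ∧
      Twisted (qq v : ℂ) (cx j Φ) (cx j N) ∧ R = rt (cx j Φ) (LinearMap.ker (cx j N)) ∧
      ∀ a ∈ R, IsAlgebraic ℚ a := by
  obtain ⟨Φ, N, ⟨hun, ⟨Q, hQ, ⟨⟨g, hg, hNg⟩, hker⟩, σ, hσ, hΦ⟩, htw⟩, hpure, ⟨C, hC, hCr⟩, halg⟩ := h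
  have hst : ∀ x ∈ LinearMap.ker (cx j N), cx j Φ x ∈ LinearMap.ker (cx j N) := by
    intro x hx
    have := (C ⟨x, hx⟩).2
    rwa [hC] at this
  refine ⟨Φ, N, Q, σ, g, hpure, hQ, hσ, hg, hΦ, hNg, hun, ?_, ?_, ?_, halg⟩
  · intro x hx
    exact (hker x).1 hx g hg
  · intro x
    have h1 := congrArg (cx j) htw
    rw [cx_smul, cx_mul, cx_mul, map_natCast] at h1
    have h2 := LinearMap.congr_fun h1 x
    rw [Module.End.mul_apply, LinearMap.smul_apply, Module.End.mul_apply] at h2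
    exact h2
  · rw [rt_eq hst, ← hCr]
    congr 2
    apply LinearMap.ext
    intro x
    apply Subtype.ext
    rw [hC]
    rfl

/-- The local data on a stable subspace. -/
theorem local_ok {j : 𝕂 →+* ℂ} {w : ℤ} {v : HeightOneSpectrum (𝓞 F)} {R : Multiset ℂ}
    {Φ N : Matrix (Fin n) (Fin n) 𝕂} {Q₀ : Ideal (OO F)} {σ₀ g : GF F}
    (hpure : IsPure (qq v) w (cx j Φ) (cx j N)) (hQ₀ : PrimeOver Q₀ v) (hg : Inertia Q₀ g)
    (hΦ : Φ = mat ρ σ₀⁻¹) (hN : N = logU (mat ρ g))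
    (hun : ∀ Q, PrimeOver Q v → ∀ g, Inertia Q g → IsNilpotent (mat ρ g - 1))
    (htw : Twisted (qq v : ℂ) (cx j Φ) (cx j N))
    (hR : R = rt (cx j Φ) (LinearMap.ker (cx j N))) (halg : ∀ a ∈ R, IsAlgebraic ℚ a)
    {U : Submodule 𝕂 (Fin n → 𝕂)} (hU : Stable ρ U) {UC : Submodule ℂ (Fin n → ℂ)}
    (hUC : ∀ (A : Matrix (Fin n) (Fin n) 𝕂) (_ : ∀ x ∈ U, (Matrix.mulVecLin A) x ∈ U),
        (∀ x ∈ UC, cx j A x ∈ UC)) :
    LocalOK (qq v) w (cx j Φ) (cx j N) R UC where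
  hq := one_lt_qq v
  hF := hpure.hasNW
  hN := htw
  hnil := by
    rw [hN]
    exact cx_nilpotent j (logU_nilpotent (hun Q₀ hQ₀ g hg))
  hC := hpure.centred (one_lt_qq v) htw
  hU := hUC Φ (fun x hx => by rw [hΦ]; exact hU _ x hx)
  hUN := hUC N (fun x hx => by rw [hN]; exact logU_mem (hU g) x hx)
  hR := hR
  halg := halg

end place

section exps

variable {F : Type} [Field F] [NumberField F]

/-- The product of the numbers `D v`, and its absolute value. -/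
lemma exps_one {p : ℕ} (hp : p.Prime) {S : Finset (HeightOneSpectrum (𝓞 F))}
    {f : HeightOneSpectrum (𝓞 F) → ℕ} (hf : ∀ v ∈ S, qq v = p ^ f v)
    {D : HeightOneSpectrum (𝓞 F) → ℂ} {e : HeightOneSpectrum (𝓞 F) → ℤ} {c : ℤ}
    (hD : ∀ v ∈ S, ‖D v‖ ^ 2 = (qq v : ℝ) ^ (c + e v)) {M N : ℕ} (hM : 0 < M) {a : ℤ}
    (h : (∏ v ∈ S, D v) ^ (M * N) = (p : ℂ) ^ (-(a * M))) :
    (c * (∑ v ∈ S, f v : ℕ) + ∑ v ∈ S, (f v : ℤ) * e v) * N = -(2 * a) := by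
  have hp0 : (p : ℝ) ≠ 0 := Nat.cast_ne_zero.2 hp.ne_zero
  have hp1 : (1 : ℝ) < (p : ℝ) := by exact_mod_cast hp.one_lt
  have h1 : ‖∏ v ∈ S, D v‖ ^ 2 =
      (p : ℝ) ^ (c * (∑ v ∈ S, f v : ℕ) + ∑ v ∈ S, (f v : ℤ) * e v) := by
    rw [norm_prod, ← Finset.prod_pow]
    have h2 : ∀ v ∈ S, ‖D v‖ ^ 2 = (p : ℝ) ^ ((f v : ℤ) * (c + e v)) := by
      intro v hv
      rw [hD v hv, hf v hv, zpow_mul]
      push_cast
      rw [zpow_natCast]
    rw [Finset.prod_congr rfl h2]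
    have h3 : ∀ s : Finset (HeightOneSpectrum (𝓞 F)),
        ∏ v ∈ s, (p : ℝ) ^ ((f v : ℤ) * (c + e v)) =
          (p : ℝ) ^ (∑ v ∈ s, (f v : ℤ) * (c + e v)) := by
      classical
      intro s
      induction s using Finset.induction_on with
      | empty => simp
      | insert v s hv ih =>
        rw [Finset.prod_insert hv, Finset.sum_insert hv, ih, zpow_add₀ hp0]
    rw [h3]
    congr 1
    push_cast
    rw [Finset.mul_sum, ← Finset.sum_add_distrib]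
    refine Finset.sum_congr rfl fun v _ => ?_
    ring
  have h2 : (p : ℝ) ^ ((c * (∑ v ∈ S, f v : ℕ) + ∑ v ∈ S, (f v : ℤ) * e v) * (M * N : ℕ)) =
      (p : ℝ) ^ (-(a * M) * 2) := by
    rw [zpow_mul, ← h1, zpow_natCast, ← pow_mul, mul_comm 2, pow_mul, ← norm_pow, h, norm_zpow,
      Complex.norm_natCast, zpow_mul]
    rfl
  have h3 := zpow_right_injective₀ (by linarith) hp1.ne' h2
  have hM0 : (M : ℤ) ≠ 0 := Nat.cast_ne_zero.2 hM.ne'
  apply mul_right_cancel₀ hM0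
  push_cast at h3
  push_cast
  linear_combination h3

end exps

section main

variable {F : Type} [Field F] [NumberField F] (ℓ : ℕ) [hℓ : Fact ℓ.Prime]
  {𝕂 : Type} [NormedField 𝕂] [NormedAlgebra ℚ_[ℓ] 𝕂] [FiniteDimensional ℚ_[ℓ] 𝕂] {n : ℕ}
  (ρ : Gal(AlgebraicClosure F/F) →* GL (Fin n) 𝕂)

open Pool.Agent.W569.FM Pool.Agent.W571.FM Pool.Agent.Y115.Chi Pool.Agent.Y115.T
  Pool.Agent.Y115.R

/-- The form `J` is a polarization. -/
def IsPol (w : ℤ) (J : Matrix (Fin n) (Fin n) 𝕂) : Prop :=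
  J.det ≠ 0 ∧ ∀ g : Gal(AlgebraicClosure F/F), (mat ρ g).transpose * J * mat ρ g =
    (algebraMap ℚ_[ℓ] 𝕂 (cyclotomicCharacter (AlgebraicClosure F) ℓ g : ℤ_[ℓ])) ^ (-w) • J

/-- **The main theorem on stable subspaces.** -/
theorem exists_B (hρ : Continuous ρ) (j : 𝕂 →+* ℂ) (w : ℤ) (R : HeightOneSpectrum (𝓞 F) → Multiset ℂ)
    (T : Set ℕ) (hT3 : 3 ≤ T.encard) (hT : ∀ p ∈ T, p.Prime ∧ p ≠ ℓ ∧ UnramifiedIn F p)
    (hR : ∀ p ∈ T, ∀ v, Above v p → PureAt ρ j w v (R v))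
    (hgood : ∃ p ∈ T, ∀ v, Above v p → ∀ a ∈ R v, ‖a‖ ^ 2 = (qq v : ℝ) ^ w)
    (U : Submodule 𝕂 (Fin n → 𝕂)) (hU : Stable ρ U) :
    ∃ B : HeightOneSpectrum (𝓞 F) → Multiset (ℂ × ℕ), ∀ p ∈ T,
      (∀ v, Above v p → (∀ x ∈ B v, 1 ≤ x.2 ∧ ‖x.1‖ ^ 2 = (qq v : ℝ) ^ (w + 1 - x.2)) ∧
        ((B v).map Prod.snd).sum = finrank 𝕂 U ∧ (B v).map Prod.fst ≤ R v ∧
        ((∃ J, IsPol ℓ ρ w J ∧ ∀ x ∈ U, ∀ y ∈ U, dotProduct x (J.mulVec y) = 0) →
          (B v).map Prod.fst + (B v).map (fun x => starRingEnd ℂ x.1) ≤ R v)) ∧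
      ∃ M : ℕ, 0 < M ∧
        (∏ᶠ (v : HeightOneSpectrum (𝓞 F)) (_ : Above v p),
          ((B v).map fun x => bl (qq v) x.1 x.2).prod) ^ (2 * M) =
          (p : ℂ) ^ (w * finrank 𝕂 U * finrank ℚ F * M) := by
  classical
  have hcompl : CompleteSpace 𝕂 := FiniteDimensional.complete ℚ_[ℓ] 𝕂
  have hultra : IsUltrametricDist 𝕂 := IsUltrametricDist.of_normedAlgebra ℚ_[ℓ]
  have hchar : CharZero 𝕂 := charZero_of_injective_algebraMap (algebraMap ℚ_[ℓ] 𝕂).injective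
  -- the data at all places
  have hall : ∀ v : HeightOneSpectrum (𝓞 F), ∃ (Φ N : Matrix (Fin n) (Fin n) 𝕂) (Q₀ : Ideal (OO F))
      (σ₀ g : GF F), (∃ p ∈ T, Above v p) →
      IsPure (qq v) w (cx j Φ) (cx j N) ∧ PrimeOver Q₀ v ∧ Frobenius (qq v) Q₀ σ₀ ∧
      Inertia Q₀ g ∧ Φ = mat ρ σ₀⁻¹ ∧ N = logU (mat ρ g) ∧
      (∀ Q, PrimeOver Q v → ∀ g, Inertia Q g → IsNilpotent (mat ρ g - 1)) ∧
      (∀ x, N.mulVec x = 0 → (mat ρ g).mulVec x = x) ∧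
      Twisted (qq v : ℂ) (cx j Φ) (cx j N) ∧ R v = rt (cx j Φ) (LinearMap.ker (cx j N)) ∧
      ∀ a ∈ R v, IsAlgebraic ℚ a := by
    intro v
    by_cases h : ∃ p ∈ T, Above v p
    · obtain ⟨p, hp, hv⟩ := h
      obtain ⟨Φ, N, Q₀, σ₀, g, h1⟩ := local_all (hR p hp v hv)
      exact ⟨Φ, N, Q₀, σ₀, g, fun _ => h1⟩
    · exact ⟨0, 0, ⊥, 1, 1, fun h' => absurd h' h⟩
  choose Φ N Q₀ σ₀ g hloc using hall
  obtain ⟨UC, hfr, hUC, hUJ⟩ := exists_cx j U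
  have hok : ∀ p ∈ T, ∀ v, Above v p → LocalOK (qq v) w (cx j (Φ v)) (cx j (N v)) (R v) UC := by
    intro p hp v hv
    obtain ⟨h1, h2, h3, h4, h5, h6, h7, h8, h9, h10, h11⟩ := hloc v ⟨p, hp, hv⟩
    exact local_ok h1 h2 h4 h5 h6 h7 h9 h10 h11 hU fun A hA => (hUC A hA).1
  have hU' : ∀ g, U ≤ U.comap (act ρ g) := fun g x hx => hU g x hx
  set ψ : GF F →* 𝕂ˣ := dt ρ U hU' with hψ
  have hψc : Continuous ψ := continuous_dt ℓ ρ hρ U hU'
  set D : HeightOneSpectrum (𝓞 F) → ℂ := fun v => (rt (cx j (Φ v)) UC).prod with hD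
  have hDψ : ∀ p ∈ T, ∀ v, Above v p → D v = j ((ψ (σ₀ v)⁻¹ : 𝕂ˣ) : 𝕂) := by
    intro p hp v hv
    have h5 := (hloc v ⟨p, hp, hv⟩).2.2.2.2.1
    have h6 : ∀ x ∈ U, (Matrix.mulVecLin (Φ v)) x ∈ U := fun x hx => by rw [h5]; exact hU _ x hx
    have h7 := (hUC (Φ v) h6).2
    change (rt (cx j (Φ v)) UC).prod = _
    rw [h7]
    congr 1
    rw [coe_dt]
    congr 1
    apply LinearMap.ext
    intro x
    apply Subtype.ext
    change (Φ v).mulVec x = (mat ρ (σ₀ v)⁻¹).mulVec x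
    rw [h5]
  have hd : ∀ p ∈ T, ∀ v : HeightOneSpectrum (𝓞 F), (p : 𝓞 F) ∈ v.asIdeal → ∀ Q : Ideal (OO F),
      Q.IsPrime → cm Q = v.asIdeal → (∀ g, InInertia Q g → ψ g = 1) ∧
        ∀ g, FrobAt (Ideal.absNorm v.asIdeal) Q g → ψ g = ψ (σ₀ v) := by
    intro p hp v hv Q hQ hQv
    obtain ⟨h1, h2, h3, h4, h5, h6, h7, h8, h9, h10, h11⟩ := hloc v ⟨p, hp, hv⟩
    exact dt_frob hU' h7 h2 h3 Q hQ hQv
  have hjalg : ∀ x : 𝕂, IsAlgebraic ℚ (j x) → IsAlgebraic ℚ x := by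
    intro x hx
    exact (isAlgebraic_algHom_iff (RingHom.toRatAlgHom j) j.injective).1 hx
  have halg : ∀ p ∈ T, ∀ v : HeightOneSpectrum (𝓞 F), (p : 𝓞 F) ∈ v.asIdeal →
      IsAlgebraic ℚ (ψ (σ₀ v) : 𝕂) := by
    intro p hp v hv
    have h := hok p hp v hv
    have h1 : IsAlgebraic ℚ (D v) := by
      apply Pool.Agent.Y115.M.isAlgebraic_multiset_prod
      intro a ha
      have := h.hq
      exact alg_rt (by omega) h.hN h.hnil (fun a ha => h.halg a (by rw [h.hR]; exact ha)) h.hU a ha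
    rw [hDψ p hp v hv] at h1
    have h2 := hjalg _ h1
    rw [map_inv, Units.val_inv_eq_inv_val] at h2
    exact IsAlgebraic.inv_iff.1 h2
  obtain ⟨N₀, a, hN₀, key⟩ := place_uniform ψ hψc T hT3 hT (fun v => ψ (σ₀ v)) hd halg
  set e : HeightOneSpectrum (𝓞 F) → ℤ := fun v => ex (cx j (Φ v)) (qq v) w UC with he
  set k : ℕ := finrank 𝕂 U with hk
  have hmain : ∀ p ∈ T, ∃ (S : Finset (HeightOneSpectrum (𝓞 F))) (M : ℕ)
      (f : HeightOneSpectrum (𝓞 F) → ℕ), 0 < M ∧ (∀ v, v ∈ S ↔ Above v p) ∧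
      (∀ v ∈ S, 0 < f v) ∧ (∏ v ∈ S, D v) ^ (M * N₀) = (p : ℂ) ^ (-(a * M)) ∧
      (w * k * finrank ℚ F + ∑ v ∈ S, (f v : ℤ) * e v) * N₀ = -(2 * a) := by
    intro p hp
    obtain ⟨S, M, hM, hS, heq, f, hf, hsum⟩ := key p hp
    have h1 : (∏ v ∈ S, D v) ^ (M * N₀) = (p : ℂ) ^ (-(a * M)) := by
      have h2 := congrArg j heq
      rw [map_pow, map_prod, map_zpow₀, map_natCast] at h2
      have h3 : ∏ v ∈ S, D v = (∏ v ∈ S, j (ψ (σ₀ v) : 𝕂))⁻¹ := by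
        rw [← Finset.prod_inv_distrib]
        refine Finset.prod_congr rfl fun v hv => ?_
        rw [hDψ p hp v ((hS v).1 hv), map_inv, Units.val_inv_eq_inv_val, map_inv₀]
      rw [h3, inv_pow, h2, zpow_neg]
    refine ⟨S, M, f, hM, hS, ?_, h1, ?_⟩
    · intro v hv
      rw [Nat.pos_iff_ne_zero]
      intro h0
      have h2 := hf v hv
      rw [h0, pow_zero] at h2
      exact (one_lt_qq v).ne' h2
    · have h2 := exps_one (hT p hp).1 hf (D := D) (e := e) (c := w * k) (fun v hv => ?_) hM h1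
      · rw [hsum] at h2
        exact h2
      · have h := hok p hp v ((hS v).1 hv)
        have h3 := norm_rt h.hq h.hF w h.hU
        rw [hfr] at h3
        exact h3
  have htot : w * k * finrank ℚ F * N₀ = -(2 * a) := by
    obtain ⟨p, hp, hg⟩ := hgood
    obtain ⟨S, M, f, hM, hS, hf, h1, h2⟩ := hmain p hp
    have h3 : ∑ v ∈ S, (f v : ℤ) * e v = 0 := by
      apply Finset.sum_eq_zero
      intro v hv
      have hv' := (hS v).1 hv
      have h4 : e v = 0 := (hok p hp v hv').good (hg v hv')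
      rw [h4, mul_zero]
    rw [h3, add_zero] at h2
    exact h2
  have hN₀' : (N₀ : ℤ) ≠ 0 := Nat.cast_ne_zero.2 hN₀.ne'
  have he0 : ∀ p ∈ T, ∀ v, Above v p → e v = 0 := by
    intro p hp v hv
    obtain ⟨S, M, f, hM, hS, hf, h1, h2⟩ := hmain p hp
    have h3 : ∑ v ∈ S, (f v : ℤ) * e v = 0 := by
      have h4 : (∑ v ∈ S, (f v : ℤ) * e v) * N₀ = 0 := by linear_combination h2 - htot
      exact (mul_eq_zero.1 h4).resolve_right hN₀'
    have h5 : ∀ v ∈ S, (f v : ℤ) * e v ≤ 0 := by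
      intro v hv
      have h6 : e v ≤ 0 := (hok p hp v ((hS v).1 hv)).ex_le
      have h7 : (0 : ℤ) ≤ f v := Nat.cast_nonneg _
      nlinarith
    have h6 := (Finset.sum_eq_zero_iff_of_nonpos h5).1 h3 v ((hS v).2 hv)
    have h7 : (f v : ℤ) ≠ 0 := Nat.cast_ne_zero.2 (hf v ((hS v).2 hv)).ne'
    exact (mul_eq_zero.1 h6).resolve_left h7
  refine ⟨fun v => blocks (qq v) w (cx j (Φ v)) (cx j (N v)) UC, fun p hp => ⟨fun v hv => ?_, ?_⟩⟩
  · have h := hok p hp v hv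
    have h0 := he0 p hp v hv
    refine ⟨h.weight h0, (h.size h0).trans hfr, h.fst_le, ?_⟩
    rintro ⟨J, ⟨hdet, hpol⟩, hiso⟩
    obtain ⟨h1, h2, h3, h4, h5, h6, h7, h8, h9, h10, h11⟩ := hloc v ⟨p, hp, hv⟩
    have hpQ : (p : OO F) ∈ Q₀ v := by
      have h12 : cm (Q₀ v) = v.asIdeal := h2.2
      rw [← natCast_mem_cm, h12]
      exact hv
    have hℓQ : (ℓ : OO F) ∉ Q₀ v :=
      not_mem_of_ne (hT p hp).1 (hT p hp).2.1 h2.1.ne_top hpQ
    refine h.iso h0 (b := Matrix.toLinearMap₂' ℂ (J.map j)) ?_ ?_ ?_ ?_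
    · intro x hx
      refine form_nondeg j hdet x fun y => ?_
      have := hx y
      rwa [Matrix.toLinearMap₂'_apply'] at this
    · intro x y
      rw [Matrix.toLinearMap₂'_apply', Matrix.toLinearMap₂'_apply']
      have h12 : (Φ v).transpose * J * Φ v = ((qq v : 𝕂) ^ w) • J := by
        rw [h5, hpol, chi_inv h2.1 hℓQ h3]
      rw [form_simil j h12, map_zpow₀, map_natCast]
    · intro x z hx
      rw [Matrix.toLinearMap₂'_apply', h6]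
      rw [h6] at hx
      refine ker_form j (form_inertia hpol h2.1 hℓQ h4) ?_ x z hx
      intro x hx
      exact h8 x (by rw [h6]; exact hx)
    · intro x hx y hy
      rw [Matrix.toLinearMap₂'_apply']
      exact hUJ J hiso x hx y hy
  · obtain ⟨S, M, f, hM, hS, hf, h1, h2⟩ := hmain p hp
    refine ⟨M * N₀, Nat.mul_pos hM hN₀, ?_⟩
    have hfin : (∏ᶠ (v : HeightOneSpectrum (𝓞 F)) (_ : Above v p),
        ((blocks (qq v) w (cx j (Φ v)) (cx j (N v)) UC).map fun x => bl (qq v) x.1 x.2).prod) =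
        ∏ v ∈ S, D v := by
      have h3 : (∏ᶠ (v : HeightOneSpectrum (𝓞 F)) (_ : Above v p),
          ((blocks (qq v) w (cx j (Φ v)) (cx j (N v)) UC).map fun x => bl (qq v) x.1 x.2).prod) =
          ∏ v ∈ S, ((blocks (qq v) w (cx j (Φ v)) (cx j (N v)) UC).map
            fun x => bl (qq v) x.1 x.2).prod := by
        apply finprod_cond_eq_prod_of_cond_iff
        intro v _
        exact (hS v).symm
      rw [h3]
      refine Finset.prod_congr rfl fun v hv => ?_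
      have hv' := (hS v).1 hv
      exact ((hok p hp v hv').prod (he0 p hp v hv')).symm
    rw [hfin, mul_comm 2, pow_mul, h1]
    have hp0 : (p : ℂ) ≠ 0 := Nat.cast_ne_zero.2 (hT p hp).1.ne_zero
    rw [← zpow_natCast, ← zpow_mul]
    congr 1
    push_cast
    linear_combination (-(M : ℤ)) * htot

end main

end Pool.Agent.K7.H9.SS
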