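import Pool.Agent.K7.H9.SS.Form
import Pool.Agent.Y115.Lin

/-!
# Isotropic stable subspaces
-/

set_option autoImplicit false

open Module

universe v

namespace Pool.Agent.K7.H9.SS

open Pool.Agent.Y163.MW Pool.Agent.Y143 Pool.Agent.Y136.UB

variable {q : ℕ} {V : Type v} [AddCommGroup V] [Module ℂ V] [Module.Finite ℂ V]
  {Φ N : Module.End ℂ V}

lemma inf_stable (hq : 0 < q) {U : Submodule ℂ V} (hU : ∀ x ∈ U, Φ x ∈ U) (c : ℤ) :
    ∀ x ∈ U ⊓ nw Φ q c, Φ x ∈ U ⊓ nw Φ q c := fun x hx => ⟨hU x hx.1, F_nw hq hx.2⟩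

/-- If the sum of the weights is the expected one, the subspace is centred. -/
lemma cenU_of_sum (hq : 1 < q) (hF : HasNW Φ q) (hN : Twisted (q : ℂ) Φ N) {w : ℤ}
    (hC : Centred (fun c => nw Φ q (w + c)) N) {U : Submodule ℂ V} (hU : ∀ x ∈ U, Φ x ∈ U)
    (hUN : ∀ x ∈ U, N x ∈ U) (h0 : ((rt Φ U).map fun α => wf q α - w).sum = 0) :
    CenU Φ N q w U := by
  have hq0 : (q : ℂ) ≠ 0 := Nat.cast_ne_zero.2 (by omega)
  have hq' : 0 < q := by omega
  have key := (sum_wt hq hF hN hC hU hUN).2 h0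
  intro a
  refine ⟨fun x hx h => (hC a).1 x hx.2 h, ?_⟩
  have hS := inf_stable (Φ := Φ) hq' hU (w + -(a : ℤ))
  have h1 := Submodule.eq_iSup_inf_genEigenspace (p := U ⊓ nw Φ q (w + -(a : ℤ))) (f := Φ) ⊤ hS
    (Module.End.iSup_maxGenEigenspace_eq_top Φ)
  have h2 : U ⊓ nw Φ q (w + -(a : ℤ)) ≤ (U ⊓ nw Φ q (w + a)).map (N ^ a) := by
    rw [h1]
    refine iSup_le fun α => ?_
    intro y hy
    by_cases hy0 : y = 0
    · rw [hy0]
      exact Submodule.zero_mem _
    obtain ⟨z, hz, hz0, hzα⟩ := exists_eigen_of_gen hS hy.1 hy.2 hy0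
    have hα : Wt q (w + -(a : ℤ)) α := eigen_nw hq hF hz.2 hz0 hzα
    have hα' : Wt q (w + a) (α * (q : ℂ) ^ a) := by
      have := hα.mul_pow hq' a
      rwa [show w + -(a : ℤ) + 2 * a = w + a by ring] at this
    have h3 : ∀ x ∈ (U ⊓ Φ.maxGenEigenspace (α * (q : ℂ) ^ a) : Submodule ℂ V),
        (N ^ a) x ∈ (U ⊓ Φ.maxGenEigenspace α : Submodule ℂ V) := by
      intro x hx
      refine ⟨pow_stable hUN a x hx.1, ?_⟩
      have := pow_gen hq' hN hx.2 a
      rwa [mul_div_cancel_right₀ _ (pow_ne_zero _ hq0)] at this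
    have h4 : Function.Injective ((N ^ a).restrict h3) := by
      rw [← LinearMap.ker_eq_bot, LinearMap.ker_eq_bot']
      intro x hx
      apply Subtype.ext
      refine (hC a).1 x (gen_le_nw hα' x.2.2) ?_
      exact congrArg Subtype.val hx
    have h5 := key a α (by rwa [sub_eq_add_neg])
    have h6 := (LinearMap.injective_iff_surjective_of_finrank_eq_finrank h5.symm).1 h4
    obtain ⟨x, hx⟩ := h6 ⟨y, hy.1.1, hy.2⟩
    exact ⟨x, ⟨x.2.1, gen_le_nw hα' x.2.2⟩, congrArg Subtype.val hx⟩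
  intro y hy
  obtain ⟨x, hx, hxy⟩ := h2 hy
  exact ⟨x, hx, hxy⟩

/-- Orthogonality of generalized eigenspaces. -/
lemma orth_gen {b : V →ₗ[ℂ] V →ₗ[ℂ] ℂ} {c : ℂ} (hb : ∀ x y, b (Φ x) (Φ y) = c * b x y) {α β : ℂ}
    (h : α * β ≠ c) : ∀ (k l : ℕ) (x y : V), ((Φ - algebraMap ℂ (Module.End ℂ V) α) ^ k) x = 0 →
      ((Φ - algebraMap ℂ (Module.End ℂ V) β) ^ l) y = 0 → b x y = 0 := by
  have hcomm : ∀ (β : ℂ) (l : ℕ) (y : V), ((Φ - algebraMap ℂ (Module.End ℂ V) β) ^ l) (Φ y) =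
      Φ (((Φ - algebraMap ℂ (Module.End ℂ V) β) ^ l) y) := by
    intro β l y
    have h1 : Commute ((Φ - algebraMap ℂ (Module.End ℂ V) β) ^ l) Φ := by
      apply Commute.pow_left
      exact (Commute.refl Φ).sub_left (Algebra.commute_algebraMap_left β Φ)
    exact congrArg (fun f : Module.End ℂ V => f y) h1.eq
  intro k
  induction k with
  | zero =>
    intro l x y hx _
    have hx' : x = 0 := by simpa using hx
    rw [hx', map_zero, LinearMap.zero_apply]
  | succ k ihk =>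
    intro l
    induction l with
    | zero =>
      intro x y _ hy
      have hy' : y = 0 := by simpa using hy
      rw [hy', map_zero]
    | succ l ihl =>
      intro x y hx hy
      have h1 : b ((Φ - algebraMap ℂ (Module.End ℂ V) α) x) (Φ y) = 0 := by
        refine ihk (l + 1) _ _ ?_ ?_
        · rw [pow_succ, Module.End.mul_apply] at hx
          exact hx
        · rw [hcomm, hy, map_zero]
      have h2 : b x ((Φ - algebraMap ℂ (Module.End ℂ V) β) y) = 0 := by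
        refine ihl x _ hx ?_
        rw [pow_succ, Module.End.mul_apply] at hy
        exact hy
      rw [LinearMap.sub_apply, Module.algebraMap_end_apply, map_sub, map_smul,
        LinearMap.sub_apply, LinearMap.smul_apply, hb, smul_eq_mul] at h1
      rw [LinearMap.sub_apply, Module.algebraMap_end_apply, map_sub, map_smul,
        smul_eq_mul] at h2
      have h3 : (c - α * β) * b x y = 0 := by linear_combination h1 + α * h2
      rcases mul_eq_zero.1 h3 with h4 | h4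
      · exact absurd (sub_eq_zero.1 h4).symm h
      · exact h4

lemma orth_nw (hq : 1 < q) {w : ℤ} {b : V →ₗ[ℂ] V →ₗ[ℂ] ℂ}
    (hb : ∀ x y, b (Φ x) (Φ y) = (q : ℂ) ^ w * b x y) {c c' : ℤ} (hcc : c + c' ≠ 2 * w) {x y : V}
    (hx : x ∈ nw Φ q c) (hy : y ∈ nw Φ q c') : b x y = 0 := by
  have hq1 : (1 : ℝ) < (q : ℝ) := by exact_mod_cast hq
  have hq0 : (q : ℝ) ≠ 0 := by linarith
  have h1 : ∀ x ∈ nw Φ q c, ∀ β, Wt q c' β → ∀ y ∈ Φ.maxGenEigenspace β, b x y = 0 := by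
    intro x hx β hβ y hy
    have h2 : nw Φ q c ≤ LinearMap.ker (b.flip y) := by
      refine iSup₂_le fun α hα => ?_
      intro z hz
      obtain ⟨k, hk⟩ := mem_gen.1 hz
      obtain ⟨l, hl⟩ := mem_gen.1 hy
      refine orth_gen hb (α := α) (β := β) ?_ k l z y hk hl
      intro h
      apply hcc
      have h3 : ‖α * β‖ ^ 2 = (q : ℝ) ^ (c + c') := by
        unfold Wt at hα hβ
        rw [norm_mul, mul_pow, hα, hβ, zpow_add₀ hq0]
      rw [h, norm_zpow, Complex.norm_natCast, ← zpow_natCast, ← zpow_mul] at h3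
      have h4 := zpow_right_injective₀ (by linarith) hq1.ne' h3
      push_cast at h4
      omega
    exact h2 hx
  have h2 : nw Φ q c' ≤ LinearMap.ker (b x) := by
    refine iSup₂_le fun β hβ => ?_
    intro z hz
    exact h1 x hx β hβ z hz
  exact h2 hy

/-- The inverse of `N ^ a` on a weight space. -/
lemma exists_inv {w : ℤ} (hC : Centred (fun c => nw Φ q (w + c)) N) (a : ℕ)
    (hNa : ∀ x ∈ nw Φ q (w + a), (N ^ a) x ∈ nw Φ q (w + -(a : ℤ))) :
    ∃ Y : nw Φ q (w + -(a : ℤ)) →ₗ[ℂ] V, (∀ y, Y y ∈ nw Φ q (w + a)) ∧ ∀ y, (N ^ a) (Y y) = y := by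
  have hbij : Function.Bijective ((N ^ a).restrict hNa) := by
    constructor
    · rw [← LinearMap.ker_eq_bot, LinearMap.ker_eq_bot']
      intro x hx
      apply Subtype.ext
      exact (hC a).1 x x.2 (congrArg Subtype.val hx)
    · intro y
      obtain ⟨x, hx, hxy⟩ := (hC a).2 y y.2
      exact ⟨⟨x, hx⟩, Subtype.ext hxy⟩
  let e := LinearEquiv.ofBijective _ hbij
  refine ⟨(nw Φ q (w + a)).subtype.comp e.symm.toLinearMap, fun y => (e.symm y).2, fun y => ?_⟩
  have h1 : e (e.symm y) = y := e.apply_symm_apply y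
  exact congrArg Subtype.val h1

/-- **The eigenvalues on an isotropic centred subspace**, on the kernel of `N`, in one weight. -/
lemma isotropic_weight (hq : 1 < q) (hF : HasNW Φ q) (hN : Twisted (q : ℂ) Φ N) {w : ℤ}
    (hC : Centred (fun c => nw Φ q (w + c)) N) {U : Submodule ℂ V} (hU : ∀ x ∈ U, Φ x ∈ U)
    (hcen : CenU Φ N q w U)
    {b : V →ₗ[ℂ] V →ₗ[ℂ] ℂ} (hbnd : ∀ x, (∀ y, b x y = 0) → x = 0)
    (hb : ∀ x y, b (Φ x) (Φ y) = (q : ℂ) ^ w * b x y)
    (hker : ∀ x z, N x = 0 → b x (N z) = 0)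
    (hiso : ∀ x ∈ U, ∀ y ∈ U, b x y = 0) (a : ℕ) :
    rt Φ (LinearMap.ker N ⊓ U ⊓ nw Φ q (w + -(a : ℤ))) +
      (rt Φ (LinearMap.ker N ⊓ U ⊓ nw Φ q (w + -(a : ℤ)))).map
        (fun x => (q : ℂ) ^ (w + -(a : ℤ)) / x) ≤
      rt Φ (LinearMap.ker N ⊓ nw Φ q (w + -(a : ℤ))) := by
  classical
  have hq' : 0 < q := by omega
  have hq0 : (q : ℂ) ≠ 0 := Nat.cast_ne_zero.2 (by omega)
  have hNpow : ∀ (k : ℕ) (c : ℤ) (x : V), x ∈ nw Φ q c → (N ^ k) x ∈ nw Φ q (c - 2 * k) := by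
    intro k c x hx
    induction k with
    | zero => simpa using hx
    | succ k ih =>
      rw [pow_succ', Module.End.mul_apply]
      have := N_nw hq' hN ih
      rwa [show c - 2 * (k : ℤ) - 2 = c - 2 * ((k + 1 : ℕ) : ℤ) by push_cast; ring] at this
  have hNa : ∀ x ∈ nw Φ q (w + a), (N ^ a) x ∈ nw Φ q (w + -(a : ℤ)) := by
    intro x hx
    have := hNpow a _ x hx
    rwa [show w + (a : ℤ) - 2 * a = w + -(a : ℤ) by ring] at this
  obtain ⟨Y, hY1, hY2⟩ := exists_inv hC a hNa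
  have hYu : ∀ (y : nw Φ q (w + -(a : ℤ))) (z : V), z ∈ nw Φ q (w + a) → (N ^ a) z = y → z = Y y := by
    intro y z hz hzy
    refine sub_eq_zero.1 ((hC a).1 _ (Submodule.sub_mem _ hz (hY1 y)) ?_)
    rw [map_sub, hzy, hY2, sub_self]
  have htw : ∀ (k : ℕ) (x : V), (N ^ k) (Φ x) = (q : ℂ) ^ k • Φ ((N ^ k) x) := by
    intro k
    induction k with
    | zero => intro x; simp
    | succ k ih =>
      intro x
      rw [pow_succ' N, Module.End.mul_apply, ih, map_smul, hN, smul_smul, Module.End.mul_apply,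
        ← pow_succ]
  -- the space `K`
  set K : Submodule ℂ V := LinearMap.ker N ⊓ nw Φ q (w + -(a : ℤ)) with hK
  have hKst : ∀ x ∈ K, Φ x ∈ K := by
    rintro x ⟨h1, h2⟩
    refine ⟨?_, F_nw hq' h2⟩
    have h1' : N x = 0 := h1
    change N (Φ x) = 0
    rw [hN, h1', map_zero, smul_zero]
  let ι : K →ₗ[ℂ] nw Φ q (w + -(a : ℤ)) := Submodule.inclusion inf_le_right
  let b' : K →ₗ[ℂ] K →ₗ[ℂ] ℂ := (b.compl₂ (Y.comp ι)).comp K.subtype
  have hb' : ∀ x y : K, b' x y = b x (Y (ι y)) := fun x y => rfl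
  have hnd : ∀ x : K, (∀ y, b' x y = 0) → x = 0 := by
    intro x hx
    apply Subtype.ext
    apply hbnd
    intro v
    have hv : v ∈ ⨆ c, nw Φ q c := by rw [iSup_nw hF]; trivial
    have hle : (⨆ c, nw Φ q c) ≤ LinearMap.ker (b x) := by
      refine iSup_le fun c => ?_
      intro v hv
      by_cases hc : c = w + a
      · subst hc
        -- `v = p + N z`
        have h1 : (N ^ (a + 1)) v ∈ nw Φ q (w + -((a + 2 : ℕ) : ℤ)) := by
          have := hNpow (a + 1) _ v hv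
          rwa [show w + (a : ℤ) - 2 * ((a + 1 : ℕ) : ℤ) = w + -((a + 2 : ℕ) : ℤ) by
            push_cast; ring] at this
        obtain ⟨z, hz, hzv⟩ := (hC (a + 2)).2 _ h1
        have hz' : N z ∈ nw Φ q (w + a) := by
          have := N_nw hq' hN hz
          rwa [show w + ((a + 2 : ℕ) : ℤ) - 2 = w + a by push_cast; ring] at this
        have h2 : (N ^ (a + 1)) (v - N z) = 0 := by
          rw [map_sub, ← hzv]
          have : (N ^ (a + 1)) (N z) = (N ^ (a + 2)) z := by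
            rw [pow_succ N (a + 1), Module.End.mul_apply]
          rw [this, sub_self]
        have h3 : (N ^ a) (v - N z) ∈ K := by
          refine ⟨?_, hNa _ (Submodule.sub_mem _ hv hz')⟩
          rw [pow_succ', Module.End.mul_apply] at h2
          exact h2
        have h4 := hx ⟨_, h3⟩
        rw [hb', ← hYu (ι ⟨_, h3⟩) (v - N z) (Submodule.sub_mem _ hv hz') rfl, map_sub,
          hker x z x.2.1, sub_zero] at h4
        exact h4
      · refine orth_nw hq hb (fun h => hc ?_) x.2.2 hv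
        omega
    exact hle hv
  have hsim : ∀ x y : K, b' ((Φ.restrict hKst) x) ((Φ.restrict hKst) y) =
      (q : ℂ) ^ (w + -(a : ℤ)) * b' x y := by
    intro x y
    rw [hb', hb']
    have h1 : ((q : ℂ) ^ a)⁻¹ • Φ (Y (ι y)) = Y (ι ((Φ.restrict hKst) y)) := by
      refine hYu _ _ (Submodule.smul_mem _ _ (F_nw hq' (hY1 _))) ?_
      rw [map_smul, htw, smul_smul, inv_mul_cancel₀ (pow_ne_zero _ hq0), one_smul, hY2]
      rfl
    rw [← h1, map_smul, smul_eq_mul]
    change ((q : ℂ) ^ a)⁻¹ * b (Φ x) (Φ (Y (ι y))) = _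
    rw [hb, zpow_add₀ hq0, zpow_neg, zpow_natCast]
    ring
  set R : Submodule ℂ K := U.comap K.subtype with hR
  have hRst : R ≤ R.comap (Φ.restrict hKst) := by
    intro x hx
    exact hU x hx
  have hRiso : ∀ x ∈ R, ∀ y ∈ R, b' x y = 0 := by
    intro x hx y hy
    rw [hb']
    obtain ⟨z, hz, hzy⟩ := (hcen a).2 (y : V) ⟨hy, y.2.2⟩
    rw [← hYu (ι y) z hz.2 hzy]
    exact hiso _ hx _ hz.1
  have key := (Pool.Agent.Y115.L.isotropic_roots (RingHom.id ℂ) b' hnd (Φ.restrict hKst)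
    (c := (q : ℂ) ^ (w + -(a : ℤ))) (zpow_ne_zero _ hq0) hsim R hRst hRiso).2.1
  rw [Polynomial.map_id, Polynomial.map_id, RingHom.id_apply, ← rt_eq hKst] at key
  have hRr : (LinearMap.charpoly ((Φ.restrict hKst).restrict hRst)).roots =
      rt Φ (LinearMap.ker N ⊓ U ⊓ nw Φ q (w + -(a : ℤ))) := by
    have hst := inf_stable (Φ := Φ) hq' (ker_stable hN hU) (w + -(a : ℤ))
    have h1 : (LinearMap.charpoly ((Φ.restrict hKst).restrict hRst)).roots =
        rt (Φ.restrict hKst) R := (rt_eq (Φ := Φ.restrict hKst) (U := R) hRst).symm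
    rw [h1]
    ext α
    rw [count_rt (Φ := Φ.restrict hKst) (U := R) hRst, count_rt hst]
    have h2 : Module.End.maxGenEigenspace (Φ.restrict hKst) α =
        (Φ.maxGenEigenspace α).comap K.subtype := by
      rw [Module.End.maxGenEigenspace, Module.End.genEigenspace_restrict]
    have h3 : LinearMap.ker N ⊓ U ⊓ nw Φ q (w + -(a : ℤ)) ⊓ Φ.maxGenEigenspace α =
        (R ⊓ Module.End.maxGenEigenspace (Φ.restrict hKst) α).map K.subtype := by
      rw [h2]
      ext x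
      constructor
      · rintro ⟨⟨⟨h1, h2⟩, h3⟩, h4⟩
        exact ⟨⟨x, h1, h3⟩, ⟨h2, h4⟩, rfl⟩
      · rintro ⟨y, ⟨h1, h2⟩, rfl⟩
        exact ⟨⟨⟨y.2.1, h1⟩, y.2.2⟩, h2⟩
    rw [h3]
    exact (LinearEquiv.finrank_eq (Submodule.equivMapOfInjective _ K.injective_subtype _))
  rw [hRr] at key
  exact key

lemma count_weight [DecidableEq ℂ] (hq : 1 < q) {S : Submodule ℂ V}
    (hS : ∀ x ∈ S, Φ x ∈ S) {c : ℤ} {α : ℂ} (hα : Wt q c α) :
    (rt Φ (S ⊓ nw Φ q c)).count α = (rt Φ S).count α := by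
  rw [count_rt (inf_stable (by omega) hS c), count_rt hS]
  have h1 : S ⊓ nw Φ q c ⊓ Φ.maxGenEigenspace α = S ⊓ Φ.maxGenEigenspace α := by
    ext x
    constructor
    · rintro ⟨⟨h1, _⟩, h3⟩
      exact ⟨h1, h3⟩
    · rintro ⟨h1, h3⟩
      exact ⟨⟨h1, gen_le_nw hα h3⟩, h3⟩
  rw [h1]

lemma wt_of_mem_nw (hq : 1 < q) (hF : HasNW Φ q) {S : Submodule ℂ V}
    (hS : ∀ x ∈ S, Φ x ∈ S) {c : ℤ} {α : ℂ} (hα : α ∈ rt Φ (S ⊓ nw Φ q c)) : Wt q c α := by
  obtain ⟨x, hx, h0, hx'⟩ := mem_rt (inf_stable (by omega) hS c) hα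
  exact eigen_nw hq hF hx.2 h0 hx'

/-- **The eigenvalues on an isotropic centred subspace**, on the kernel of `N`. -/
theorem isotropic_ker (hq : 1 < q) (hF : HasNW Φ q) (hN : Twisted (q : ℂ) Φ N) {w : ℤ}
    (hC : Centred (fun c => nw Φ q (w + c)) N) {U : Submodule ℂ V} (hU : ∀ x ∈ U, Φ x ∈ U)
    (hcen : CenU Φ N q w U)
    {b : V →ₗ[ℂ] V →ₗ[ℂ] ℂ} (hbnd : ∀ x, (∀ y, b x y = 0) → x = 0)
    (hb : ∀ x y, b (Φ x) (Φ y) = (q : ℂ) ^ w * b x y)
    (hker : ∀ x z, N x = 0 → b x (N z) = 0)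
    (hiso : ∀ x ∈ U, ∀ y ∈ U, b x y = 0) :
    rt Φ (LinearMap.ker N ⊓ U) + (rt Φ (LinearMap.ker N ⊓ U)).map (starRingEnd ℂ) ≤
      rt Φ (LinearMap.ker N) := by
  classical
  have hq' : 0 < q := by omega
  have hKU := ker_stable hN hU
  have hKst : ∀ x ∈ LinearMap.ker N, Φ x ∈ LinearMap.ker N := by
    intro x hx
    rw [LinearMap.mem_ker] at hx ⊢
    rw [hN, hx, map_zero, smul_zero]
  have hcount : ∀ (s : Multiset ℂ) (α : ℂ), (s.map (starRingEnd ℂ)).count α =
      s.count (starRingEnd ℂ α) := by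
    intro s α
    conv_lhs => rw [← Complex.conj_conj α]
    exact Multiset.count_map_eq_count' _ _ (starRingEnd ℂ).injective _
  rw [Multiset.le_iff_count]
  intro α
  rw [Multiset.count_add, hcount]
  by_cases hα : ∃ c, Wt q c α
  · obtain ⟨c, hc⟩ := hα
    by_cases hcw : c ≤ w
    · obtain ⟨a, ha⟩ : ∃ a : ℕ, c = w + -(a : ℤ) := ⟨(w - c).toNat, by omega⟩
      subst ha
      have key := isotropic_weight hq hF hN hC hU hcen hbnd hb hker hiso a
      rw [Multiset.le_iff_count] at key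
      have h1 := key α
      have h2 : (rt Φ (LinearMap.ker N ⊓ U ⊓ nw Φ q (w + -(a : ℤ)))).map
          (fun x => (q : ℂ) ^ (w + -(a : ℤ)) / x) =
          (rt Φ (LinearMap.ker N ⊓ U ⊓ nw Φ q (w + -(a : ℤ)))).map (starRingEnd ℂ) := by
        refine Multiset.map_congr rfl fun x hx => ?_
        exact ((wt_of_mem_nw hq hF hKU hx).conj_eq hq').symm
      rw [h2, Multiset.count_add, hcount, count_weight hq hKU hc, count_weight hq hKU hc.conj,
        count_weight hq hKst hc] at h1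
      exact h1
    · have h1 : ∀ β : ℂ, Wt q c β → (rt Φ (LinearMap.ker N ⊓ U)).count β = 0 := by
        intro β hβ
        rw [count_rt hKU]
        have h2 : LinearMap.ker N ⊓ U ⊓ Φ.maxGenEigenspace β = ⊥ := by
          rw [Submodule.eq_bot_iff]
          rintro x ⟨⟨h1, h2⟩, h3⟩
          exact hcen.ker_le hq (not_le.1 hcw) h2 (gen_le_nw hβ h3) h1
        rw [h2, finrank_bot]
      rw [h1 α hc, h1 _ hc.conj]
      exact Nat.zero_le _
  · have h1 : ∀ β : ℂ, (¬ ∃ c, Wt q c β) → (rt Φ (LinearMap.ker N ⊓ U)).count β = 0 := by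
      intro β hβ
      rw [count_rt hKU, gen_bot hF hβ, inf_bot_eq, finrank_bot]
    have h2 : ¬ ∃ c, Wt q c (starRingEnd ℂ α) := by
      rintro ⟨c, hc⟩
      exact hα ⟨c, by have := hc.conj; rwa [Complex.conj_conj] at this⟩
    rw [h1 α hα, h1 _ h2]
    exact Nat.zero_le _

end Pool.Agent.K7.H9.SS
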