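import Pool.Agent.K7.H9.SS.Iso

/-!
# The local results, and complexification of stable subspaces
-/

set_option autoImplicit false

open Module

universe v

namespace Pool.Agent.K7.H9.SS

open Pool.Agent.Y163.MW Pool.Agent.Y143 Pool.Agent.Y136.UB

section loc

variable {q : ℕ} {V : Type v} [AddCommGroup V] [Module ℂ V] [Module.Finite ℂ V]
  {Φ N : Module.End ℂ V}

lemma norm_prod_wt (hq : 1 < q) (s : Multiset ℂ) (hs : ∀ a ∈ s, ∃ c, Wt q c a) :
    ‖s.prod‖ ^ 2 = (q : ℝ) ^ (s.map (wf q)).sum := by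
  have hq0 : (q : ℝ) ≠ 0 := Nat.cast_ne_zero.2 (by omega)
  induction s using Multiset.induction_on with
  | empty => simp
  | cons a s ih =>
    obtain ⟨c, hc⟩ := hs a (Multiset.mem_cons_self a s)
    rw [Multiset.prod_cons, norm_mul, mul_pow, ih fun b hb => hs b (Multiset.mem_cons_of_mem hb),
      Multiset.map_cons, Multiset.sum_cons, zpow_add₀ hq0, wf_eq hq hc]
    unfold Wt at hc
    rw [hc]

/-- The excess of the weights on `U`. -/
noncomputable def ex (Φ : Module.End ℂ V) (q : ℕ) (w : ℤ) (U : Submodule ℂ V) : ℤ :=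
  ((rt Φ U).map fun α => wf q α - w).sum

lemma norm_rt (hq : 1 < q) (hF : HasNW Φ q) (w : ℤ) {U : Submodule ℂ V} (hU : ∀ x ∈ U, Φ x ∈ U) :
    ‖(rt Φ U).prod‖ ^ 2 = (q : ℝ) ^ (w * finrank ℂ U + ex Φ q w U) := by
  rw [norm_prod_wt hq _ fun a ha => wt_of_mem hF hU ha]
  congr 1
  unfold ex
  rw [Multiset.sum_map_sub, Multiset.map_const', Multiset.sum_replicate, card_rt hU]
  simp only [smul_eq_mul, nsmul_eq_mul]
  ring

lemma cenU_top {w : ℤ} (hC : Centred (fun c => nw Φ q (w + c)) N) : CenU Φ N q w ⊤ := by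
  unfold CenU
  simpa using hC

/-- If all the eigenvalues on the kernel of `N` have weight `w` then all eigenvalues have weight
`w`. -/
lemma good_wt (hq : 1 < q) (hF : HasNW Φ q) (hN : Twisted (q : ℂ) Φ N) (hnil : IsNilpotent N)
    {w : ℤ} (hC : Centred (fun c => nw Φ q (w + c)) N)
    (hgood : ∀ a ∈ rt Φ (LinearMap.ker N), Wt q w a) {U : Submodule ℂ V}
    (hU : ∀ x ∈ U, Φ x ∈ U) : ex Φ q w U = 0 := by
  classical
  have htop : ∀ x ∈ (⊤ : Submodule ℂ V), Φ x ∈ (⊤ : Submodule ℂ V) := fun _ _ => trivial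
  have htopN : ∀ x ∈ (⊤ : Submodule ℂ V), N x ∈ (⊤ : Submodule ℂ V) := fun _ _ => trivial
  have h1 := (strings hq hF hN hnil (finrank ℂ (⊤ : Submodule ℂ V)) ⊤ w le_rfl htop htopN
    (cenU_top hC)).1
  rw [inf_top_eq] at h1
  have h2 : ((rt Φ (LinearMap.ker N)).map (sz q w)) = (rt Φ (LinearMap.ker N)).map fun _ => 1 := by
    refine Multiset.map_congr rfl fun a ha => ?_
    unfold sz
    rw [wf_eq hq (hgood a ha)]
    omega
  have hKst : ∀ x ∈ LinearMap.ker N, Φ x ∈ LinearMap.ker N := by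
    intro x hx
    rw [LinearMap.mem_ker] at hx ⊢
    rw [hN, hx, map_zero, smul_zero]
  rw [h2, Multiset.map_const', Multiset.sum_replicate, card_rt hKst, smul_eq_mul, mul_one,
    finrank_top] at h1
  have h3 : LinearMap.ker N = ⊤ := Submodule.eq_top_of_finrank_eq h1.symm
  unfold ex
  apply Multiset.sum_eq_zero
  intro x hx
  obtain ⟨a, ha, rfl⟩ := Multiset.mem_map.1 hx
  have h4 : a ∈ rt Φ (LinearMap.ker N) := by
    rw [h3]
    exact Multiset.mem_of_le (rt_le hU htop le_top) ha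
  rw [wf_eq hq (hgood a h4), sub_self]

end loc

section cx

variable {𝕂 : Type} [NormedField 𝕂] {n : ℕ}

lemma cx_mul (j : 𝕂 →+* ℂ) (A B : Matrix (Fin n) (Fin n) 𝕂) : cx j (A * B) = cx j A * cx j B := by
  unfold cx
  rw [Matrix.map_mul, Matrix.toLin'_mul]
  rfl

lemma cx_smul (j : 𝕂 →+* ℂ) (c : 𝕂) (A : Matrix (Fin n) (Fin n) 𝕂) :
    cx j (c • A) = j c • cx j A := by
  unfold cx
  rw [← map_smul]
  congr 1
  ext i k
  simp

lemma cx_sub (j : 𝕂 →+* ℂ) (A B : Matrix (Fin n) (Fin n) 𝕂) : cx j (A - B) = cx j A - cx j B := by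
  unfold cx
  rw [← map_sub]
  congr 1
  ext i k
  simp

lemma cx_one (j : 𝕂 →+* ℂ) : cx j (1 : Matrix (Fin n) (Fin n) 𝕂) = 1 := by
  unfold cx
  rw [Matrix.map_one j (map_zero j) (map_one j), Matrix.toLin'_one]
  rfl

lemma cx_apply (j : 𝕂 →+* ℂ) (A : Matrix (Fin n) (Fin n) 𝕂) (x : Fin n → ℂ) :
    cx j A x = (A.map j).mulVec x := by
  unfold cx
  rw [Matrix.toLin'_apply]

/-- Base change of a stable subspace. -/
lemma exists_base (U : Submodule 𝕂 (Fin n → 𝕂)) :
    ∃ B : Matrix (Fin n) (Fin (finrank 𝕂 U)) 𝕂, (∀ k, (fun i => B i k) ∈ U) ∧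
      (∃ L : Matrix (Fin (finrank 𝕂 U)) (Fin n) 𝕂, L * B = 1) ∧
      ∀ (A : Matrix (Fin n) (Fin n) 𝕂) (h : ∀ x ∈ U, (Matrix.mulVecLin A) x ∈ U),
        ∃ C : Matrix (Fin (finrank 𝕂 U)) (Fin (finrank 𝕂 U)) 𝕂, A * B = B * C ∧
          C.det = LinearMap.det ((Matrix.mulVecLin A).restrict h) := by
  classical
  let b := Module.finBasis 𝕂 U
  let B : Matrix (Fin n) (Fin (finrank 𝕂 U)) 𝕂 := fun i k => (b k : Fin n → 𝕂) i
  have hB : ∀ c : Fin (finrank 𝕂 U) → 𝕂, B.mulVec c = ((∑ k, c k • b k : U) : Fin n → 𝕂) := by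
    intro c
    funext i
    rw [Submodule.coe_sum, Finset.sum_apply]
    simp only [Matrix.mulVec, dotProduct, Submodule.coe_smul, Pi.smul_apply, smul_eq_mul]
    exact Finset.sum_congr rfl fun k _ => mul_comm _ _
  refine ⟨B, fun k => (b k).2, ?_, ?_⟩
  · have hinj : LinearMap.ker B.mulVecLin = ⊥ := by
      rw [LinearMap.ker_eq_bot']
      intro c hc
      rw [Matrix.mulVecLin_apply, hB] at hc
      have h1 : ∑ k, c k • b k = 0 := Subtype.ext hc
      funext k
      exact (Fintype.linearIndependent_iff.1 b.linearIndependent) c h1 k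
    obtain ⟨L, hL⟩ := LinearMap.exists_leftInverse_of_injective B.mulVecLin hinj
    refine ⟨LinearMap.toMatrix' L, ?_⟩
    have h2 : LinearMap.toMatrix' (L ∘ₗ B.mulVecLin) = LinearMap.toMatrix' L * B := by
      rw [LinearMap.toMatrix'_comp, ← Matrix.toLin'_apply', LinearMap.toMatrix'_toLin']
    rw [← h2, hL, LinearMap.toMatrix'_id]
  · intro A h
    refine ⟨LinearMap.toMatrix b b ((Matrix.mulVecLin A).restrict h), ?_, ?_⟩
    · apply Matrix.toLin'.injective
      refine (Pi.basisFun 𝕂 (Fin (finrank 𝕂 U))).ext fun k => ?_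
      rw [Pi.basisFun_apply, Matrix.toLin'_apply, Matrix.toLin'_apply, ← Matrix.mulVec_mulVec,
        ← Matrix.mulVec_mulVec, hB, hB]
      have h1 : (∑ l, (Pi.single k (1 : 𝕂) : Fin (finrank 𝕂 U) → 𝕂) l • b l : U) = b k := by
        rw [Finset.sum_eq_single k]
        · rw [Pi.single_eq_same, one_smul]
        · intro l _ hl
          rw [Pi.single_eq_of_ne hl, zero_smul]
        · intro h
          exact absurd (Finset.mem_univ k) h
      rw [h1]
      have h2 : (LinearMap.toMatrix b b ((Matrix.mulVecLin A).restrict h)).mulVec (Pi.single k 1) =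
          b.repr (((Matrix.mulVecLin A).restrict h) (b k)) := by
        rw [← LinearMap.toMatrix_mulVec_repr b b, b.repr_self]
        congr 1
        funext l
        rw [Finsupp.single_apply, Pi.single_apply]
        simp only [eq_comm]
      have h3 : (∑ l, (b.repr (((Matrix.mulVecLin A).restrict h) (b k))) l • b l : U) =
          ((Matrix.mulVecLin A).restrict h) (b k) := b.sum_repr _
      rw [h2, h3]
      rfl
    · rw [LinearMap.det_toMatrix]

/-- Base change of a subspace to the complex numbers. -/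
lemma exists_cx (j : 𝕂 →+* ℂ) (U : Submodule 𝕂 (Fin n → 𝕂)) :
    ∃ UC : Submodule ℂ (Fin n → ℂ), finrank ℂ UC = finrank 𝕂 U ∧
      (∀ (A : Matrix (Fin n) (Fin n) 𝕂) (h : ∀ x ∈ U, (Matrix.mulVecLin A) x ∈ U),
        (∀ x ∈ UC, cx j A x ∈ UC) ∧
          (rt (cx j A) UC).prod = j (LinearMap.det ((Matrix.mulVecLin A).restrict h))) ∧
      ∀ J : Matrix (Fin n) (Fin n) 𝕂, (∀ x ∈ U, ∀ y ∈ U, dotProduct x (J.mulVec y) = 0) →
        ∀ x ∈ UC, ∀ y ∈ UC, dotProduct x ((J.map j).mulVec y) = 0 := by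
  classical
  obtain ⟨B, hBU, ⟨L, hL⟩, hA⟩ := exists_base U
  have hLC : (L.map j) * (B.map j) = 1 := by
    rw [← Matrix.map_mul, hL, Matrix.map_one j (map_zero j) (map_one j)]
  have hinj : Function.Injective (B.map j).mulVecLin := by
    intro x y h
    have h1 : (L.map j).mulVec ((B.map j).mulVec x) = (L.map j).mulVec ((B.map j).mulVec y) :=
      congrArg _ h
    rwa [Matrix.mulVec_mulVec, Matrix.mulVec_mulVec, hLC, Matrix.one_mulVec,
      Matrix.one_mulVec] at h1
  let e := LinearEquiv.ofInjective (B.map j).mulVecLin hinj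
  refine ⟨LinearMap.range (B.map j).mulVecLin, ?_, ?_, ?_⟩
  · rw [LinearMap.finrank_range_of_inj hinj, finrank_fin_fun]
  · intro A h
    obtain ⟨C, hC, hdet⟩ := hA A h
    have hCC : (A.map j) * (B.map j) = (B.map j) * (C.map j) := by
      rw [← Matrix.map_mul, hC, Matrix.map_mul]
    have hst : ∀ x ∈ LinearMap.range (B.map j).mulVecLin,
        cx j A x ∈ LinearMap.range (B.map j).mulVecLin := by
      rintro _ ⟨x, rfl⟩
      refine ⟨(C.map j).mulVec x, ?_⟩
      rw [cx_apply, Matrix.mulVecLin_apply, Matrix.mulVecLin_apply, Matrix.mulVec_mulVec,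
        Matrix.mulVec_mulVec, hCC]
    refine ⟨hst, ?_⟩
    rw [prod_rt hst, ← hdet]
    have h1 : (cx j A).restrict hst =
        (e : (Fin (finrank 𝕂 U) → ℂ) →ₗ[ℂ] _) ∘ₗ (Matrix.toLin' (C.map j)) ∘ₗ
          (e.symm : _ →ₗ[ℂ] (Fin (finrank 𝕂 U) → ℂ)) := by
      apply LinearMap.ext
      intro x
      obtain ⟨y, rfl⟩ := e.surjective x
      apply Subtype.ext
      change cx j A ((B.map j).mulVec y) = (B.map j).mulVec (Matrix.toLin' (C.map j) (e.symm (e y)))
      rw [e.symm_apply_apply, Matrix.toLin'_apply, cx_apply, Matrix.mulVec_mulVec,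
        Matrix.mulVec_mulVec, hCC]
    rw [h1, LinearMap.det_conj, LinearMap.det_toLin']
    exact (RingHom.map_det j C).symm
  · intro J hJ
    have h0 : (B.transpose * J * B) = 0 := by
      ext k l
      have h1 := hJ _ (hBU k) _ (hBU l)
      rw [Matrix.zero_apply, Matrix.mul_assoc, Matrix.mul_apply]
      exact h1
    have h1 : ((B.map j).transpose * (J.map j) * (B.map j)) = 0 := by
      rw [← Matrix.transpose_map, ← Matrix.map_mul, ← Matrix.map_mul, h0,
        Matrix.map_zero j (map_zero j)]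
    rintro _ ⟨x, rfl⟩ _ ⟨y, rfl⟩
    rw [Matrix.mulVecLin_apply, Matrix.mulVecLin_apply, Matrix.mulVec_mulVec,
      ← Matrix.vecMul_transpose, ← Matrix.dotProduct_mulVec, Matrix.mulVec_mulVec,
      ← Matrix.mul_assoc, h1, Matrix.zero_mulVec, dotProduct_zero]

end cx

end Pool.Agent.K7.H9.SS
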