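import Pool.Agent.K7.H9.SS.Loc
import Pool.Agent.K7.H9.SS.Ari

/-!
# The monodromy operator at one place
-/

set_option autoImplicit false
set_option linter.unusedSectionVars false

open NumberField IsDedekindDomain Module

namespace Pool.Agent.K7.H9.SS

open Pool.Agent.Y143 Pool.Agent.Y163.MW Pool.Agent.Y136.UB

section alg

variable {K : Type*} [Field K] {V : Type*} [AddCommGroup V] [Module K V]

lemma det_unip [Module.Finite K V] (f : Module.End K V) (h : IsNilpotent (f - 1)) :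
    LinearMap.det f = 1 := by
  have h1 : (f - 1).charpoly = Polynomial.X ^ finrank K V :=
    IsNilpotent.charpoly_eq_X_pow_finrank h
  have h2 := LinearMap.eval_charpoly (f - 1) (-1 : K)
  rw [h1, Polynomial.eval_pow, Polynomial.eval_X] at h2
  have h3 : (algebraMap K (V →ₗ[K] V)) (-1) - (f - 1) = (-1 : K) • f := by
    apply LinearMap.ext
    intro x
    rw [LinearMap.sub_apply, LinearMap.sub_apply, Module.End.one_apply,
      Module.algebraMap_end_apply, LinearMap.smul_apply, neg_smul, neg_smul, one_smul, one_smul]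
    abel
  rw [h3, LinearMap.det_smul] at h2
  have h4 : ((-1 : K) ^ finrank K V) ≠ 0 := pow_ne_zero _ (neg_ne_zero.2 one_ne_zero)
  exact mul_left_cancel₀ h4 (by rw [mul_one]; exact h2.symm)

lemma exists_factor {W W' : Type*} [AddCommGroup W] [Module K W] [AddCommGroup W'] [Module K W']
    (f : V →ₗ[K] W) (g : V →ₗ[K] W') (h : ∀ x, f x = 0 → g x = 0) : ∃ P : W →ₗ[K] W', P ∘ₗ f = g := by
  have hle : LinearMap.ker f ≤ LinearMap.ker g := fun x hx => h x hx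
  obtain ⟨l, hl⟩ := LinearMap.exists_leftInverse_of_injective
    ((LinearMap.ker f).liftQ f le_rfl) (Submodule.ker_liftQ_eq_bot _ _ _ le_rfl)
  refine ⟨(LinearMap.ker f).liftQ g hle ∘ₗ l, ?_⟩
  apply LinearMap.ext
  intro x
  have h1 : l (f x) = (LinearMap.ker f).mkQ x := by
    have h2 := LinearMap.congr_fun hl ((LinearMap.ker f).mkQ x)
    rw [LinearMap.comp_apply, LinearMap.id_apply, Submodule.mkQ_apply, Submodule.liftQ_apply] at h2
    exact h2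
  rw [LinearMap.comp_apply, LinearMap.comp_apply, h1, Submodule.mkQ_apply, Submodule.liftQ_apply]

end alg

section log

variable {𝕂 : Type} [NormedField 𝕂] {n : ℕ}

/-- The logarithm divided by `u - 1`. -/
noncomputable def logP (u : Matrix (Fin n) (Fin n) 𝕂) : Matrix (Fin n) (Fin n) 𝕂 :=
  ∑ k ∈ Finset.range n, ((-1 : 𝕂) ^ k / (k + 1)) • (u - 1) ^ k

lemma logU_eq (u : Matrix (Fin n) (Fin n) 𝕂) : logU u = (u - 1) * logP u := by
  unfold logU logP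
  rw [Finset.mul_sum]
  refine Finset.sum_congr rfl fun k _ => ?_
  rw [Matrix.mul_smul, pow_succ']

lemma commute_logP (u : Matrix (Fin n) (Fin n) 𝕂) : Commute (u - 1) (logP u) := by
  unfold logP
  apply Commute.sum_right
  intro k _
  exact ((Commute.refl (u - 1)).pow_right k).smul_right _

lemma logU_nilpotent {u : Matrix (Fin n) (Fin n) 𝕂} (h : IsNilpotent (u - 1)) :
    IsNilpotent (logU u) := by
  rw [logU_eq]
  exact (commute_logP u).isNilpotent_mul_right h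

lemma cx_pow (j : 𝕂 →+* ℂ) (A : Matrix (Fin n) (Fin n) 𝕂) (k : ℕ) : cx j (A ^ k) = cx j A ^ k := by
  induction k with
  | zero => rw [pow_zero, pow_zero, cx_one]
  | succ k ih => rw [pow_succ, pow_succ, cx_mul, ih]

lemma cx_zero (j : 𝕂 →+* ℂ) : cx j (0 : Matrix (Fin n) (Fin n) 𝕂) = 0 := by
  unfold cx
  rw [Matrix.map_zero j (map_zero j), map_zero]

lemma cx_nilpotent (j : 𝕂 →+* ℂ) {A : Matrix (Fin n) (Fin n) 𝕂} (h : IsNilpotent A) :
    IsNilpotent (cx j A) := by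
  obtain ⟨k, hk⟩ := h
  exact ⟨k, by rw [← cx_pow, hk, cx_zero]⟩

lemma mulVec_pow_mem {U : Submodule 𝕂 (Fin n → 𝕂)} {A : Matrix (Fin n) (Fin n) 𝕂}
    (h : ∀ x ∈ U, A.mulVec x ∈ U) (k : ℕ) : ∀ x ∈ U, (A ^ k).mulVec x ∈ U := by
  induction k with
  | zero => intro x hx; rwa [pow_zero, Matrix.one_mulVec]
  | succ k ih =>
    intro x hx
    rw [pow_succ, ← Matrix.mulVec_mulVec]
    exact ih _ (h x hx)

lemma logU_mem {U : Submodule 𝕂 (Fin n → 𝕂)} {u : Matrix (Fin n) (Fin n) 𝕂}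
    (h : ∀ x ∈ U, u.mulVec x ∈ U) : ∀ x ∈ U, (logU u).mulVec x ∈ U := by
  intro x hx
  unfold logU
  rw [Matrix.sum_mulVec]
  apply Submodule.sum_mem
  intro k _
  rw [Matrix.smul_mulVec]
  apply Submodule.smul_mem
  refine mulVec_pow_mem (fun y hy => ?_) _ x hx
  rw [Matrix.sub_mulVec, Matrix.one_mulVec]
  exact U.sub_mem (h y hy) hy

end log

section place

variable {F : Type} [Field F] [NumberField F] {ℓ : ℕ} [hℓ : Fact ℓ.Prime]
  {𝕂 : Type} [NormedField 𝕂] [NormedAlgebra ℚ_[ℓ] 𝕂] {n : ℕ}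
  {ρ : Gal(AlgebraicClosure F/F) →* GL (Fin n) 𝕂}

open Pool.Agent.W569.FM Pool.Agent.W571.FM Pool.Agent.Y115.Chi Pool.Agent.Y115.T

lemma mat_mul (g h : Gal(AlgebraicClosure F/F)) : mat ρ (g * h) = mat ρ g * mat ρ h := by
  unfold mat
  rw [map_mul, Units.val_mul]

/-- The multiplier of the form. -/
lemma chi_inv {w : ℤ} {q : ℕ} {Q : Ideal (OO F)} (hQ : Q.IsPrime) (hl : (ℓ : OO F) ∉ Q)
    {σ : GF F} (hσ : FrobAt q Q σ) :
    (algebraMap ℚ_[ℓ] 𝕂 (cyclotomicCharacter (AlgebraicClosure F) ℓ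
      (σ⁻¹ : Gal(AlgebraicClosure F/F)) : ℤ_[ℓ])) ^ (-w) = (q : 𝕂) ^ w := by
  have hχ := chi_frob hQ hl hσ
  have h1 : (algebraMap ℚ_[ℓ] 𝕂 (((chi F ℓ σ⁻¹ : ℤ_[ℓ]ˣ) : ℤ_[ℓ]) : ℚ_[ℓ])) * (q : 𝕂) = 1 := by
    have h2 : ((chi F ℓ σ⁻¹ : ℤ_[ℓ]ˣ) : ℤ_[ℓ]) * ((chi F ℓ σ : ℤ_[ℓ]ˣ) : ℤ_[ℓ]) = 1 := by
      rw [← Units.val_mul, ← map_mul, inv_mul_cancel, map_one, Units.val_one]
    rw [hχ] at h2
    have h3 := congrArg (fun z : ℤ_[ℓ] => algebraMap ℚ_[ℓ] 𝕂 (z : ℚ_[ℓ])) h2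
    simpa using h3
  have h4 : (algebraMap ℚ_[ℓ] 𝕂 (((chi F ℓ σ⁻¹ : ℤ_[ℓ]ˣ) : ℤ_[ℓ]) : ℚ_[ℓ])) = (q : 𝕂)⁻¹ :=
    eq_inv_of_mul_eq_one_left h1
  change (algebraMap ℚ_[ℓ] 𝕂 (((chi F ℓ σ⁻¹ : ℤ_[ℓ]ˣ) : ℤ_[ℓ]) : ℚ_[ℓ])) ^ (-w) = (q : 𝕂) ^ w
  rw [h4, inv_zpow', neg_neg]

/-- The form is invariant under the inertia group. -/
lemma form_inertia {J : Matrix (Fin n) (Fin n) 𝕂} {w : ℤ}
    (hpol : ∀ g : Gal(AlgebraicClosure F/F), (mat ρ g).transpose * J * mat ρ g =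
      (algebraMap ℚ_[ℓ] 𝕂 (cyclotomicCharacter (AlgebraicClosure F) ℓ g : ℤ_[ℓ])) ^ (-w) • J)
    {Q : Ideal (OO F)} (hQ : Q.IsPrime) (hl : (ℓ : OO F) ∉ Q) {g : GF F} (hg : Inertia Q g) :
    (mat ρ g).transpose * J * mat ρ g = J := by
  have h1 : FrobAt 1 Q g := fun x => by rw [pow_one]; exact hg x
  have hχ := chi_frob hQ hl h1
  have h2 : (algebraMap ℚ_[ℓ] 𝕂 (((chi F ℓ g : ℤ_[ℓ]ˣ) : ℤ_[ℓ]) : ℚ_[ℓ])) = 1 := by
    rw [hχ]
    simp
  have h3 := hpol g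
  change _ = (algebraMap ℚ_[ℓ] 𝕂 (((chi F ℓ g : ℤ_[ℓ]ˣ) : ℤ_[ℓ]) : ℚ_[ℓ])) ^ (-w) • J at h3
  rw [h3, h2, one_zpow, one_smul]

end place

section form

variable {𝕂 : Type} [NormedField 𝕂] {n : ℕ}

lemma ker_form (j : 𝕂 →+* ℂ) {J u : Matrix (Fin n) (Fin n) 𝕂} (hJ : u.transpose * J * u = J)
    (hfix : ∀ x, (logU u).mulVec x = 0 → u.mulVec x = x) (x z : Fin n → ℂ)
    (hx : cx j (logU u) x = 0) :
    dotProduct x ((J.map j).mulVec (cx j (logU u) z)) = 0 := by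
  have h1 : ∀ x, (logU u).mulVec x = 0 → (J * logU u).transpose.mulVec x = 0 := by
    intro x hx
    have hux := hfix x hx
    rw [Matrix.mulVec_transpose, logU_eq, ← Matrix.mul_assoc, ← Matrix.vecMul_vecMul]
    have h2 : Matrix.vecMul x (J * (u - 1)) = 0 := by
      rw [Matrix.mul_sub, Matrix.mul_one, Matrix.vecMul_sub, sub_eq_zero]
      conv_lhs => rw [← hux]
      rw [← Matrix.mulVec_transpose, Matrix.mulVec_mulVec, ← Matrix.vecMul_transpose,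
        Matrix.transpose_mul, Matrix.transpose_transpose, ← Matrix.mul_assoc, hJ]
    rw [h2, Matrix.zero_vecMul]
  obtain ⟨P, hP⟩ := exists_factor (logU u).mulVecLin (J * logU u).transpose.mulVecLin
    (fun x hx => h1 x hx)
  have h2 : (J * logU u).transpose = LinearMap.toMatrix' P * logU u := by
    have h3 := congrArg LinearMap.toMatrix' hP
    rw [LinearMap.toMatrix'_comp] at h3
    have h4 : ∀ A : Matrix (Fin n) (Fin n) 𝕂, LinearMap.toMatrix' A.mulVecLin = A := by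
      intro A
      rw [← Matrix.toLin'_apply', LinearMap.toMatrix'_toLin']
    rw [h4, h4] at h3
    exact h3.symm
  rw [cx_apply] at hx ⊢
  rw [Matrix.mulVec_mulVec, Matrix.dotProduct_mulVec, ← Matrix.map_mul, ← Matrix.mulVec_transpose,
    ← Matrix.transpose_map, h2, Matrix.map_mul, ← Matrix.mulVec_mulVec, hx, Matrix.mulVec_zero,
    zero_dotProduct]

lemma form_simil (j : 𝕂 →+* ℂ) {J Φ : Matrix (Fin n) (Fin n) 𝕂} {c : 𝕂}
    (h : Φ.transpose * J * Φ = c • J) (x y : Fin n → ℂ) :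
    dotProduct (cx j Φ x) ((J.map j).mulVec (cx j Φ y)) =
      j c * dotProduct x ((J.map j).mulVec y) := by
  have h1 : (Φ.map j).transpose * J.map j * Φ.map j = j c • J.map j := by
    rw [← Matrix.transpose_map, ← Matrix.map_mul, ← Matrix.map_mul, h]
    ext a b
    simp
  rw [cx_apply, cx_apply, Matrix.mulVec_mulVec, ← Matrix.vecMul_transpose,
    ← Matrix.dotProduct_mulVec, Matrix.mulVec_mulVec, ← Matrix.mul_assoc, h1, Matrix.smul_mulVec,
    dotProduct_smul, smul_eq_mul]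

lemma form_nondeg (j : 𝕂 →+* ℂ) {J : Matrix (Fin n) (Fin n) 𝕂} (hJ : J.det ≠ 0) (x : Fin n → ℂ)
    (h : ∀ y, dotProduct x ((J.map j).mulVec y) = 0) : x = 0 := by
  have h1 : (J.map j).det ≠ 0 := by
    have h2 : (J.map j).det = j J.det := (RingHom.map_det j J).symm
    rw [h2]
    exact (map_ne_zero j).2 hJ
  apply Matrix.eq_zero_of_vecMul_eq_zero h1
  apply dotProduct_eq_zero
  intro y
  rw [← Matrix.dotProduct_mulVec]
  exact h y

end form

section eig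

universe v

variable {q : ℕ} {V : Type v} [AddCommGroup V] [Module ℂ V] [Module.Finite ℂ V]
  {Φ N : Module.End ℂ V}

lemma mem_rt_of {U : Submodule ℂ V} (hU : ∀ x ∈ U, Φ x ∈ U) {a : ℂ} {x : V} (hx : x ∈ U)
    (h0 : x ≠ 0) (hΦ : Φ x = a • x) : a ∈ rt Φ U := by
  classical
  rw [← Multiset.count_pos, count_rt hU]
  have hmem : x ∈ U ⊓ Φ.maxGenEigenspace a := by
    refine ⟨hx, mem_gen.2 ⟨1, ?_⟩⟩
    rw [pow_one, LinearMap.sub_apply, Module.algebraMap_end_apply, hΦ, sub_self]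
  rw [Nat.pos_iff_ne_zero]
  intro h
  rw [Submodule.finrank_eq_zero] at h
  rw [h, Submodule.mem_bot] at hmem
  exact h0 hmem

lemma Φ_pow (hq : 0 < q) (hN : Twisted (q : ℂ) Φ N) {a : ℂ} {x : V} (hΦ : Φ x = a • x) (k : ℕ) :
    Φ ((N ^ k) x) = (a / (q : ℂ) ^ k) • (N ^ k) x := by
  have hq0 : (q : ℂ) ≠ 0 := Nat.cast_ne_zero.2 (by omega)
  induction k with
  | zero => rw [pow_zero, pow_zero, div_one, Module.End.one_apply, hΦ]
  | succ k ih =>
    have h1 := hN ((N ^ k) x)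
    rw [ih, map_smul] at h1
    have h2 : (N ^ (k + 1)) x = N ((N ^ k) x) := by rw [pow_succ', Module.End.mul_apply]
    rw [h2, pow_succ, ← div_div, div_eq_mul_inv _ (q : ℂ), mul_comm, mul_smul, h1, smul_smul,
      inv_mul_cancel₀ hq0, one_smul]

/-- All the eigenvalues are algebraic numbers. -/
lemma alg_rt (hq : 0 < q) (hN : Twisted (q : ℂ) Φ N) (hnil : IsNilpotent N)
    (h : ∀ a ∈ rt Φ (LinearMap.ker N), IsAlgebraic ℚ a) {U : Submodule ℂ V}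
    (hU : ∀ x ∈ U, Φ x ∈ U) : ∀ a ∈ rt Φ U, IsAlgebraic ℚ a := by
  classical
  intro a ha
  obtain ⟨x, -, h0, hΦ⟩ := mem_rt hU ha
  obtain ⟨m, hm⟩ := hnil
  have hex : ∃ k, (N ^ k) x = 0 := ⟨m, by rw [hm]; rfl⟩
  obtain ⟨k, hk⟩ : ∃ k, Nat.find hex = k + 1 := by
    refine Nat.exists_eq_succ_of_ne_zero ?_
    intro h1
    have h2 := Nat.find_spec hex
    rw [h1, pow_zero, Module.End.one_apply] at h2
    exact h0 h2
  have hk1 : (N ^ k) x ≠ 0 := Nat.find_min hex (by omega)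
  have hk2 : N ((N ^ k) x) = 0 := by
    have h2 := Nat.find_spec hex
    rwa [hk, pow_succ', Module.End.mul_apply] at h2
  have hst : ∀ x ∈ LinearMap.ker N, Φ x ∈ LinearMap.ker N := by
    intro x hx
    rw [LinearMap.mem_ker] at hx ⊢
    rw [hN x, hx, map_zero, smul_zero]
  have h1 := h _ (mem_rt_of hst (LinearMap.mem_ker.2 hk2) hk1 (Φ_pow hq hN hΦ k))
  have hq0 : (q : ℂ) ≠ 0 := Nat.cast_ne_zero.2 (by omega)
  have h2 : a = a / (q : ℂ) ^ k * (q : ℂ) ^ k := (div_mul_cancel₀ _ (pow_ne_zero _ hq0)).symm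
  rw [h2]
  exact h1.mul ((isAlgebraic_natCast q).pow k)

end eig

section dt

variable {F : Type} [Field F] [NumberField F] {𝕂 : Type} [NormedField 𝕂] {n : ℕ}
  {ρ : Gal(AlgebraicClosure F/F) →* GL (Fin n) 𝕂}

open Pool.Agent.W569.FM Pool.Agent.W571.FM Pool.Agent.Y115.R Pool.Agent.Y115.T

lemma dt_inertia {U : Submodule 𝕂 (Fin n → 𝕂)} (hU : ∀ g, U ≤ U.comap (act ρ g)) {g : GF F}
    (h : IsNilpotent (mat ρ g - 1)) : dt ρ U hU g = 1 := by
  apply Units.ext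
  rw [coe_dt, Units.val_one]
  apply det_unip
  obtain ⟨m, hm⟩ := h
  refine ⟨m, ?_⟩
  have key : ∀ (k : ℕ) (x : U), (((res ρ U hU g - 1) ^ k) x : Fin n → 𝕂) =
      ((mat ρ g - 1) ^ k).mulVec x := by
    intro k
    induction k with
    | zero => intro x; rw [pow_zero, pow_zero, Matrix.one_mulVec]; rfl
    | succ k ih =>
      intro x
      rw [pow_succ, pow_succ, Module.End.mul_apply, ih, ← Matrix.mulVec_mulVec]
      congr 1
      rw [LinearMap.sub_apply, Matrix.sub_mulVec, Matrix.one_mulVec]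
      rfl
  apply LinearMap.ext
  intro x
  apply Subtype.ext
  rw [key, hm, Matrix.zero_mulVec]
  rfl

/-- The value at Frobenius elements does not depend on the choice. -/
lemma dt_frob {U : Submodule 𝕂 (Fin n → 𝕂)} (hU : ∀ g, U ≤ U.comap (act ρ g))
    {v : HeightOneSpectrum (𝓞 F)}
    (hun : ∀ Q, PrimeOver Q v → ∀ g, Inertia Q g → IsNilpotent (mat ρ g - 1))
    {Q₀ : Ideal (OO F)} (hQ₀ : PrimeOver Q₀ v) {σ₀ : GF F} (hσ₀ : Frobenius (qq v) Q₀ σ₀)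
    (Q : Ideal (OO F)) (hQ : Q.IsPrime) (hQv : cm Q = v.asIdeal) :
    (∀ g, InInertia Q g → dt ρ U hU g = 1) ∧
      ∀ g, FrobAt (Ideal.absNorm v.asIdeal) Q g → dt ρ U hU g = dt ρ U hU σ₀ := by
  set ψ := dt ρ U hU with hψ
  have hin : ∀ Q : Ideal (OO F), Q.IsPrime → cm Q = v.asIdeal → ∀ g, InInertia Q g →
      ψ g = 1 := by
    intro Q hQ hQv g hg
    exact dt_inertia hU (hun Q ⟨hQ, hQv⟩ g hg)
  refine ⟨hin Q hQ hQv, fun g hg => ?_⟩
  have hQ₀v : cm Q₀ = v.asIdeal := hQ₀.2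
  obtain ⟨h, hh⟩ := exists_smul Q₀ Q hQ₀.1 hQ (hQ₀v.trans hQv.symm)
  have hq0 : Ideal.absNorm v.asIdeal ≠ 0 := by
    rw [Ne, Ideal.absNorm_eq_zero_iff]
    exact v.ne_bot
  have h1 : FrobAt (Ideal.absNorm v.asIdeal) Q₀ (h⁻¹ * g * h) := by
    intro x
    have h2 := (hh _).1 (hg (h • x))
    rw [smul_sub, smul_pow', inv_smul_smul, smul_smul, smul_smul] at h2
    exact h2
  have h2 := hin Q₀ hQ₀.1 hQ₀v _ (frob_inertia hq0 hQ₀.1 hσ₀ h1)
  rw [map_mul, map_mul, map_mul, map_inv, map_inv, mul_comm (ψ h)⁻¹, mul_assoc (ψ g),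
    inv_mul_cancel, mul_one, inv_mul_eq_one] at h2
  exact h2.symm

end dt

end Pool.Agent.K7.H9.SS
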