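import Pool.Agent.K7.H9.SS.Defs
import Pool.Agent.Y163.MW.Deg
import Pool.Agent.Y48.MW.G

/-!
# Weights of the eigenvalues of a complex endomorphism, given by absolute values
-/

set_option autoImplicit false

open Module

universe v

namespace Pool.Agent.K7.H9.SS

open Pool.Agent.Y163.MW Pool.Agent.Y143 Pool.Agent.Y136.UB

section wt

/-- `α` has weight `c` (with respect to `q`). -/
def Wt (q : ℕ) (c : ℤ) (α : ℂ) : Prop := ‖α‖ ^ 2 = (q : ℝ) ^ c

variable {q : ℕ}

lemma Wt.unique (hq : 1 < q) {c c' : ℤ} {α : ℂ} (h : Wt q c α) (h' : Wt q c' α) : c = c' := by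
  have hq1 : (1 : ℝ) < (q : ℝ) := by exact_mod_cast hq
  exact zpow_right_injective₀ (by linarith) hq1.ne' (h.symm.trans h')

/-- The weight of `α`. -/
noncomputable def wf (q : ℕ) (α : ℂ) : ℤ := by
  classical
  exact if h : ∃ c : ℤ, Wt q c α then h.choose else 0

lemma wf_eq (hq : 1 < q) {c : ℤ} {α : ℂ} (h : Wt q c α) : wf q α = c := by
  classical
  have h1 : ∃ c : ℤ, Wt q c α := ⟨c, h⟩
  unfold wf
  rw [dif_pos h1]
  exact Wt.unique hq h1.choose_spec h

lemma Wt.ne_zero (hq : 0 < q) {c : ℤ} {α : ℂ} (h : Wt q c α) : α ≠ 0 := by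
  rintro rfl
  unfold Wt at h
  rw [norm_zero, zero_pow two_ne_zero] at h
  exact zpow_ne_zero c (Nat.cast_ne_zero.2 (by omega)) h.symm

lemma Wt.mul_zpow (hq : 0 < q) {c : ℤ} {α : ℂ} (h : Wt q c α) (k : ℤ) :
    Wt q (c + 2 * k) ((q : ℂ) ^ k * α) := by
  unfold Wt at h ⊢
  have hq0 : (q : ℝ) ≠ 0 := Nat.cast_ne_zero.2 (by omega)
  rw [norm_mul, norm_zpow, Complex.norm_natCast, mul_pow, h, zpow_add₀ hq0, ← zpow_natCast,
    ← zpow_mul, mul_comm]
  congr 2
  ring

lemma Wt.mul_pow (hq : 0 < q) {c : ℤ} {α : ℂ} (h : Wt q c α) (k : ℕ) :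
    Wt q (c + 2 * k) (α * (q : ℂ) ^ k) := by
  have h1 := h.mul_zpow hq k
  rwa [zpow_natCast, mul_comm _ α] at h1

lemma Wt.div_pow (hq : 0 < q) {c : ℤ} {α : ℂ} (h : Wt q c α) (k : ℕ) :
    Wt q (c - 2 * k) (α / (q : ℂ) ^ k) := by
  have h1 := h.mul_zpow hq (-(k : ℤ))
  rw [zpow_neg, zpow_natCast, ← div_eq_inv_mul] at h1
  rwa [show c + 2 * -(k : ℤ) = c - 2 * k by ring] at h1

lemma Wt.conj {c : ℤ} {α : ℂ} (h : Wt q c α) : Wt q c (starRingEnd ℂ α) := by
  unfold Wt at h ⊢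
  rwa [Complex.norm_conj]

lemma Wt.conj_eq (hq : 0 < q) {c : ℤ} {α : ℂ} (h : Wt q c α) :
    starRingEnd ℂ α = (q : ℂ) ^ c / α := by
  have h0 := h.ne_zero hq
  rw [eq_div_iff h0, mul_comm, Complex.mul_conj, Complex.normSq_eq_norm_sq]
  unfold Wt at h
  rw [h]
  push_cast
  rfl

end wt

section op

variable {q : ℕ} {V V' : Type v} [AddCommGroup V] [Module ℂ V] [AddCommGroup V'] [Module ℂ V']

/-- The part of weight `c` for the operator `F`. -/
def nw (F : Module.End ℂ V) (q : ℕ) (c : ℤ) : Submodule ℂ V :=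
  ⨆ (α : ℂ) (_ : Wt q c α), F.maxGenEigenspace α

/-- The eigenvalues have weights. -/
def HasNW (F : Module.End ℂ V) (q : ℕ) : Prop :=
  ∀ (α : ℂ) (x : V), x ≠ 0 → F x = α • x → ∃ c : ℤ, Wt q c α

variable {F : Module.End ℂ V}

lemma exists_wt (hF : HasNW F q) {α : ℂ} {x : V} (hx : x ∈ F.maxGenEigenspace α)
    (h0 : x ≠ 0) : ∃ c : ℤ, Wt q c α := by
  obtain ⟨y, _, hy0, hFy⟩ := exists_eigen_of_gen (S := ⊤) (F := F) (fun _ _ => trivial) trivial hx h0
  exact hF α y hy0 hFy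

lemma gen_bot (hF : HasNW F q) {α : ℂ} (h : ¬ ∃ c : ℤ, Wt q c α) :
    F.maxGenEigenspace α = ⊥ := by
  rw [Submodule.eq_bot_iff]
  intro x hx
  by_contra h0
  exact h (exists_wt hF hx h0)

lemma gen_le_nw {α : ℂ} {c : ℤ} (h : Wt q c α) : F.maxGenEigenspace α ≤ nw F q c :=
  le_iSup₂_of_le α h le_rfl

lemma nw_eq (hq : 1 < q) (hF : HasNW F q) (c : ℤ) :
    nw F q c = ⨆ (α : ℂ) (_ : wf q α = c), F.maxGenEigenspace α := by
  apply le_antisymm
  · refine iSup₂_le fun α hα => ?_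
    exact le_iSup₂_of_le α (wf_eq hq hα) le_rfl
  · refine iSup₂_le fun α hα => ?_
    by_cases h : ∃ c : ℤ, Wt q c α
    · obtain ⟨c', hc⟩ := h
      rw [wf_eq hq hc] at hα
      subst hα
      exact gen_le_nw hc
    · rw [gen_bot hF h]
      exact bot_le

lemma indep_nw (hq : 1 < q) (hF : HasNW F q) : iSupIndep (nw F q) := by
  have h := iSupIndep_fib (Module.End.independent_maxGenEigenspace F) (wf q)
  have e : nw F q = fun j : ℤ => ⨆ (α : ℂ) (_ : wf q α = j), F.maxGenEigenspace α := by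
    funext j
    exact nw_eq hq hF j
  rw [e]
  exact h

lemma iSup_nw [Module.Finite ℂ V] (hF : HasNW F q) : ⨆ c, nw F q c = ⊤ := by
  rw [eq_top_iff, ← Module.End.iSup_maxGenEigenspace_eq_top F]
  refine iSup_le fun α => ?_
  by_cases h : ∃ c : ℤ, Wt q c α
  · obtain ⟨c, hc⟩ := h
    exact le_iSup_of_le c (gen_le_nw hc)
  · rw [gen_bot hF h]
    exact bot_le

/-- A map that intertwines `F` and `c F'`, where `c` has weight `2 t`. -/
lemma map_nw {F' : Module.End ℂ V'} (hq : 0 < q) {φ : V →ₗ[ℂ] V'} {t : ℤ}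
    (hφ : ∀ x, φ (F x) = (q : ℂ) ^ t • F' (φ x)) {c : ℤ} {x : V} (hx : x ∈ nw F q c) :
    φ x ∈ nw F' q (c - 2 * t) := by
  have hq0 : (q : ℂ) ≠ 0 := Nat.cast_ne_zero.2 (by omega)
  have h : nw F q c ≤ (nw F' q (c - 2 * t)).comap φ := by
    refine iSup₂_le fun α hα => ?_
    intro y hy
    have h3 := hα.mul_zpow hq (-t)
    rw [show c + 2 * (-t) = c - 2 * t by ring] at h3
    refine gen_le_nw h3 ?_
    have h4 : y ∈ ((q : ℂ) ^ (-t) • F).maxGenEigenspace ((q : ℂ) ^ (-t) * α) := by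
      obtain ⟨k, hk⟩ := mem_gen.1 hy
      refine mem_gen.2 ⟨k, ?_⟩
      have e : (q : ℂ) ^ (-t) • F - algebraMap ℂ (Module.End ℂ V) ((q : ℂ) ^ (-t) * α) =
          (q : ℂ) ^ (-t) • (F - algebraMap ℂ (Module.End ℂ V) α) := by
        ext z
        simp only [LinearMap.sub_apply, LinearMap.smul_apply, Module.algebraMap_end_apply,
          smul_sub, smul_smul]
      rw [e, smul_pow, LinearMap.smul_apply, hk, smul_zero]
    refine gen_map φ (fun z => ?_) h4
    rw [LinearMap.smul_apply, map_smul, hφ, smul_smul, ← zpow_add₀ hq0, neg_add_cancel, zpow_zero,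
      one_smul]
  exact h hx

lemma map_nw0 {F' : Module.End ℂ V'} (hq : 0 < q) {φ : V →ₗ[ℂ] V'}
    (hφ : ∀ x, φ (F x) = F' (φ x)) {c : ℤ} {x : V} (hx : x ∈ nw F q c) :
    φ x ∈ nw F' q c := by
  have h := map_nw hq (φ := φ) (F' := F') (t := 0) (fun x => by rw [hφ, zpow_zero, one_smul]) hx
  rwa [mul_zero, sub_zero] at h

lemma N_nw {N : Module.End ℂ V} (hq : 0 < q) (hN : Twisted (q : ℂ) F N) {c : ℤ} {x : V}
    (hx : x ∈ nw F q c) : N x ∈ nw F q (c - 2) := by
  have h := map_nw hq (φ := N) (F' := F) (t := 1) (fun x => by rw [hN, zpow_one]) hx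
  rwa [mul_one] at h

lemma F_nw (hq : 0 < q) {c : ℤ} {x : V} (hx : x ∈ nw F q c) : F x ∈ nw F q c :=
  map_nw0 hq (φ := F) (fun _ => rfl) hx

lemma eigen_nw (hq : 1 < q) (hF : HasNW F q) {c : ℤ} {α : ℂ} {x : V} (hx : x ∈ nw F q c)
    (h0 : x ≠ 0) (hFx : F x = α • x) : Wt q c α := by
  obtain ⟨c', hc⟩ := hF α x h0 hFx
  have h1 : x ∈ nw F q c' := by
    refine gen_le_nw hc ?_
    refine mem_gen.2 ⟨1, ?_⟩
    rw [pow_one, LinearMap.sub_apply, Module.algebraMap_end_apply, hFx, sub_self]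
  have h2 : c = c' := by
    by_contra hne
    have := (indep_nw hq hF).pairwiseDisjoint hne
    exact h0 (Submodule.disjoint_def.1 this x hx h1)
  rw [h2]
  exact hc

/-- The decomposition of a stable subspace. -/
lemma stable_nw [Module.Finite ℂ V] (hF : HasNW F q)
    {S : Submodule ℂ V} (hS : ∀ x ∈ S, F x ∈ S) : ⨆ c, S ⊓ nw F q c = S := by
  apply le_antisymm
  · exact iSup_le fun c => inf_le_left
  have h1 : S = ⨆ α, S ⊓ F.maxGenEigenspace α :=
    Submodule.eq_iSup_inf_genEigenspace (p := S) (f := F) ⊤ hS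
      (Module.End.iSup_maxGenEigenspace_eq_top F)
  conv_lhs => rw [h1]
  refine iSup_le fun α => ?_
  by_cases h : ∃ c : ℤ, Wt q c α
  · obtain ⟨c, hc⟩ := h
    refine le_iSup_of_le c (le_inf inf_le_left (inf_le_right.trans ?_))
    exact gen_le_nw hc
  · rw [gen_bot hF h, inf_bot_eq]
    exact bot_le

lemma IsPure.hasNW {w : ℤ} {N : Module.End ℂ V} (h : IsPure q w F N) : HasNW F q := by
  obtain ⟨M, hM, hα⟩ := h
  intro α x h0 hx
  obtain ⟨a, ha⟩ := hM.bot
  obtain ⟨b, hb⟩ := hM.top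
  -- the least `s` with `x ∈ M s`
  have key : ∃ s, x ∈ M s ∧ x ∉ M (s - 1) := by
    by_contra hno
    push Not at hno
    have h1 : ∀ k : ℕ, x ∈ M (b - k) := by
      intro k
      induction k with
      | zero =>
        rw [Nat.cast_zero, sub_zero, hb]
        trivial
      | succ k ih =>
        have := hno _ ih
        rwa [show b - (k : ℤ) - 1 = b - ((k + 1 : ℕ) : ℤ) by push_cast; ring] at this
    have h2 := hM.mono (show b - ((b - a).toNat : ℤ) ≤ a by omega) (h1 (b - a).toNat)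
    rw [ha, Submodule.mem_bot] at h2
    exact h0 h2
  obtain ⟨s, hs, hs'⟩ := key
  exact ⟨w + s, hα s α x hs hs' (by rw [hx, sub_self]; exact Submodule.zero_mem _)⟩

/-- Purity in terms of the weight decomposition. -/
lemma IsPure.centred [Module.Finite ℂ V] (hq : 1 < q) {w : ℤ} {N : Module.End ℂ V}
    (hN : Twisted (q : ℂ) F N) (h : IsPure q w F N) : Centred (fun c => nw F q (w + c)) N := by
  have hF := h.hasNW
  refine (Pool.Agent.Y48.MW.t_G ℂ V ⊤ (fun c => nw F q (w + c)) F N (q : ℂ)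
    (fun c α => Wt q (w + c) α) ?_ ?_ (fun c x hx => F_nw (by omega) hx)
    (fun c x hx => ?_) (Nat.cast_ne_zero.2 (by omega)) (fun x _ => hN x)
    (fun c α x hx h0 hFx => eigen_nw hq hF hx h0 hFx)
    (fun c c' α h h' => by have := Wt.unique hq h h'; omega)).1 h
  · rw [← iSup_nw hF]
    apply le_antisymm
    · exact iSup_le fun c => le_iSup (nw F q) (w + c)
    · refine iSup_le fun c => ?_
      have := le_iSup (fun c => nw F q (w + c)) (c - w)
      simpa using this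
  · exact (indep_nw hq hF).comp (f := fun c : ℤ => w + c) (fun a b h => by
      have h' : w + a = w + b := h
      omega)
  · have := N_nw (by omega : 0 < q) hN hx
    rwa [show w + c - 2 = w + (c - 2) by ring] at this

end op

end Pool.Agent.K7.H9.SS
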