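import Pool.Agent.K7.H9.SS.NW

/-!
# Stable subspaces of a pure module: multiplicities, determinant, dimension
-/

set_option autoImplicit false

open Module

universe v

namespace Pool.Agent.K7.H9.SS

open Pool.Agent.Y163.MW Pool.Agent.Y143 Pool.Agent.Y136.UB

variable {q : ℕ} {V : Type v} [AddCommGroup V] [Module ℂ V] [Module.Finite ℂ V]
  {Φ N : Module.End ℂ V}

/-- The eigenvalues of `Φ` on the stable subspace `U`, with multiplicities. -/
noncomputable def rt (Φ : Module.End ℂ V) (U : Submodule ℂ V) : Multiset ℂ := by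
  classical
  exact if h : ∀ x ∈ U, Φ x ∈ U then (Φ.restrict h).charpoly.roots else 0

lemma rt_eq {U : Submodule ℂ V} (h : ∀ x ∈ U, Φ x ∈ U) :
    rt Φ U = (Φ.restrict h).charpoly.roots := by
  unfold rt
  rw [dif_pos h]

lemma card_rt {U : Submodule ℂ V} (h : ∀ x ∈ U, Φ x ∈ U) :
    Multiset.card (rt Φ U) = finrank ℂ U := by
  rw [rt_eq h, ← (IsAlgClosed.splits _).natDegree_eq_card_roots, LinearMap.charpoly_natDegree]

lemma prod_rt {U : Submodule ℂ V} (h : ∀ x ∈ U, Φ x ∈ U) :
    (rt Φ U).prod = LinearMap.det (Φ.restrict h) := by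
  rw [rt_eq h, LinearMap.det_eq_sign_charpoly_coeff,
    (IsAlgClosed.splits _).coeff_zero_eq_prod_roots_of_monic (LinearMap.charpoly_monic _),
    LinearMap.charpoly_natDegree, ← mul_assoc, ← pow_add, ← two_mul, pow_mul, neg_one_sq, one_pow,
    one_mul]

lemma count_rt [DecidableEq ℂ] {U : Submodule ℂ V} (h : ∀ x ∈ U, Φ x ∈ U) (α : ℂ) :
    (rt Φ U).count α = finrank ℂ (U ⊓ Φ.maxGenEigenspace α : Submodule ℂ V) := by
  rw [rt_eq h, Polynomial.count_roots, ← LinearMap.finrank_maxGenEigenspace_eq]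
  have h1 : Module.End.maxGenEigenspace (Φ.restrict h) α =
      (Φ.maxGenEigenspace α).comap U.subtype := by
    rw [Module.End.maxGenEigenspace, Module.End.genEigenspace_restrict]
  rw [h1, ← Submodule.map_comap_subtype]
  exact (LinearEquiv.finrank_eq (Submodule.equivMapOfInjective U.subtype U.injective_subtype _))

lemma mem_rt {U : Submodule ℂ V} (h : ∀ x ∈ U, Φ x ∈ U) {α : ℂ} (hα : α ∈ rt Φ U) :
    ∃ x ∈ U, x ≠ 0 ∧ Φ x = α • x := by
  rw [rt_eq h, Polynomial.mem_roots (LinearMap.charpoly_monic _).ne_zero,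
    ← Module.End.hasEigenvalue_iff_isRoot_charpoly] at hα
  obtain ⟨x, hx⟩ := hα.exists_hasEigenvector
  refine ⟨x, x.2, fun h0 => hx.2 (Subtype.ext h0), ?_⟩
  exact congrArg Subtype.val hx.apply_eq_smul

lemma rt_le [DecidableEq ℂ] {U U' : Submodule ℂ V} (h : ∀ x ∈ U, Φ x ∈ U) (h' : ∀ x ∈ U', Φ x ∈ U')
    (hle : U ≤ U') : rt Φ U ≤ rt Φ U' := by
  rw [Multiset.le_iff_count]
  intro α
  rw [count_rt h, count_rt h']
  exact Submodule.finrank_mono (inf_le_inf_right _ hle)

lemma wt_of_mem {U : Submodule ℂ V} (hF : HasNW Φ q) (h : ∀ x ∈ U, Φ x ∈ U) {α : ℂ}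
    (hα : α ∈ rt Φ U) : ∃ c : ℤ, Wt q c α := by
  obtain ⟨x, _, h0, hx⟩ := mem_rt h hα
  exact hF α x h0 hx

/-- The operator `N` on the generalized eigenspaces. -/
lemma N_gen (hq : 0 < q) (hN : Twisted (q : ℂ) Φ N) {α : ℂ} {x : V}
    (hx : x ∈ Φ.maxGenEigenspace α) : N x ∈ Φ.maxGenEigenspace (α / q) := by
  have hq0 : (q : ℂ) ≠ 0 := Nat.cast_ne_zero.2 (by omega)
  have h4 : x ∈ ((q : ℂ)⁻¹ • Φ).maxGenEigenspace (α / q) := by
    obtain ⟨k, hk⟩ := mem_gen.1 hx
    refine mem_gen.2 ⟨k, ?_⟩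
    have e : (q : ℂ)⁻¹ • Φ - algebraMap ℂ (Module.End ℂ V) (α / q) =
        (q : ℂ)⁻¹ • (Φ - algebraMap ℂ (Module.End ℂ V) α) := by
      ext z
      simp only [LinearMap.sub_apply, LinearMap.smul_apply, Module.algebraMap_end_apply,
        smul_sub, smul_smul]
      rw [div_eq_inv_mul]
    rw [e, smul_pow, LinearMap.smul_apply, hk, smul_zero]
  refine gen_map N (fun z => ?_) h4
  rw [LinearMap.smul_apply, map_smul, hN, smul_smul, inv_mul_cancel₀ hq0, one_smul]

lemma pow_gen (hq : 0 < q) (hN : Twisted (q : ℂ) Φ N) {α : ℂ} {x : V}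
    (hx : x ∈ Φ.maxGenEigenspace α) (a : ℕ) :
    (N ^ a) x ∈ Φ.maxGenEigenspace (α / (q : ℂ) ^ a) := by
  induction a with
  | zero => simpa using hx
  | succ a ih =>
    rw [pow_succ' N, Module.End.mul_apply,
      show α / (q : ℂ) ^ (a + 1) = α / (q : ℂ) ^ a / q by rw [div_div, pow_succ]]
    exact N_gen hq hN ih

lemma pow_stable {U : Submodule ℂ V} (h : ∀ x ∈ U, N x ∈ U) (a : ℕ) : ∀ x ∈ U, (N ^ a) x ∈ U := by
  induction a with
  | zero => exact fun x hx => hx
  | succ a ih =>
    intro x hx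
    rw [pow_succ', Module.End.mul_apply]
    exact h _ (ih x hx)

/-- Multiplicities under a power of `N`. -/
lemma finrank_gen_le (hq : 0 < q) (hN : Twisted (q : ℂ) Φ N) {w : ℤ}
    (hC : Centred (fun c => nw Φ q (w + c)) N) {U : Submodule ℂ V} (hUN : ∀ x ∈ U, N x ∈ U)
    {α : ℂ} {a : ℕ} (hα : Wt q (w + a) α) :
    finrank ℂ (U ⊓ Φ.maxGenEigenspace α : Submodule ℂ V) ≤
      finrank ℂ (U ⊓ Φ.maxGenEigenspace (α / (q : ℂ) ^ a) : Submodule ℂ V) := by
  have h1 : ∀ x ∈ (U ⊓ Φ.maxGenEigenspace α : Submodule ℂ V),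
      (N ^ a) x ∈ (U ⊓ Φ.maxGenEigenspace (α / (q : ℂ) ^ a) : Submodule ℂ V) :=
    fun x hx => ⟨pow_stable hUN a x hx.1, pow_gen hq hN hx.2 a⟩
  refine LinearMap.finrank_le_finrank_of_injective (f := (N ^ a).restrict h1) ?_
  rw [← LinearMap.ker_eq_bot, LinearMap.ker_eq_bot']
  intro x hx
  apply Subtype.ext
  refine (hC a).1 x (gen_le_nw hα x.2.2) ?_
  exact congrArg Subtype.val hx

/-- The sum of the weights on a stable subspace. -/
lemma sum_wt (hq : 1 < q) (hF : HasNW Φ q) (hN : Twisted (q : ℂ) Φ N) {w : ℤ}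
    (hC : Centred (fun c => nw Φ q (w + c)) N) {U : Submodule ℂ V} (hU : ∀ x ∈ U, Φ x ∈ U)
    (hUN : ∀ x ∈ U, N x ∈ U) :
    ((rt Φ U).map fun α => wf q α - w).sum ≤ 0 ∧
      (((rt Φ U).map fun α => wf q α - w).sum = 0 → ∀ (a : ℕ) (β : ℂ), Wt q (w - a) β →
        finrank ℂ (U ⊓ Φ.maxGenEigenspace β : Submodule ℂ V) =
          finrank ℂ (U ⊓ Φ.maxGenEigenspace (β * (q : ℂ) ^ a) : Submodule ℂ V)) := by
  classical
  have hq0 : (q : ℂ) ≠ 0 := Nat.cast_ne_zero.2 (by omega)
  set R := rt Φ U with hR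
  set g : ℂ → ℤ := fun α => wf q α - w with hg
  set f : ℂ → ℂ := fun α => α / (q : ℂ) ^ (g α).toNat with hf
  set P := R.filter fun α => 0 < g α with hP
  set Q := R.filter fun α => g α < 0 with hQ
  have hPw : ∀ α ∈ P, Wt q (w + ((g α).toNat : ℤ)) α ∧ 0 < (g α).toNat := by
    intro α hα
    obtain ⟨hαR, hgα⟩ := Multiset.mem_filter.1 hα
    obtain ⟨c, hc⟩ := wt_of_mem hF hU hαR
    have h1 := wf_eq hq hc
    have h2 : ((g α).toNat : ℤ) = g α := Int.toNat_of_nonneg hgα.le
    refine ⟨?_, by omega⟩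
    rw [h2]
    change Wt q (w + (wf q α - w)) α
    rwa [add_sub_cancel, h1]
  have hfw : ∀ α ∈ P, Wt q (w - ((g α).toNat : ℤ)) (f α) := by
    intro α hα
    have h1 := (hPw α hα).1.div_pow (by omega : 0 < q) (g α).toNat
    rwa [show w + ((g α).toNat : ℤ) - 2 * ((g α).toNat : ℤ) = w - ((g α).toNat : ℤ) by ring] at h1
  have hback : ∀ α ∈ P, ∀ (a : ℕ) (β : ℂ), Wt q (w - a) β → (β = f α ↔ β * (q : ℂ) ^ a = α) := by
    intro α hα a β hβ
    constructor
    · rintro rfl
      have h1 := Wt.unique hq hβ (hfw α hα)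
      have h2 : a = (g α).toNat := by omega
      rw [h2]
      change α / (q : ℂ) ^ (g α).toNat * (q : ℂ) ^ (g α).toNat = α
      rw [div_mul_cancel₀ _ (pow_ne_zero _ hq0)]
    · intro h
      have h1 := hβ.mul_pow (by omega : 0 < q) a
      rw [h] at h1
      have h2 := Wt.unique hq h1 (hPw α hα).1
      have h3 : a = (g α).toNat := by omega
      change β = α / (q : ℂ) ^ (g α).toNat
      rw [← h3, ← h, mul_div_cancel_right₀ _ (pow_ne_zero _ hq0)]
  have hcnt : ∀ (a : ℕ) (β : ℂ), Wt q (w - a) β →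
      (P.map f).count β = P.count (β * (q : ℂ) ^ a) := by
    intro a β hβ
    rw [Multiset.count_map, Multiset.count_eq_card_filter_eq]
    congr 1
    exact Multiset.filter_congr fun α hα => hback α hα a β hβ
  have hle : P.map f ≤ Q := by
    rw [Multiset.le_iff_count]
    intro β
    by_cases hβ : β ∈ P.map f
    · obtain ⟨α, hα, rfl⟩ := Multiset.mem_map.1 hβ
      rw [hcnt _ _ (hfw α hα), (hback α hα _ _ (hfw α hα)).1 rfl]
      refine (Multiset.count_le_of_le α (Multiset.filter_le _ _)).trans ?_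
      rw [hR, count_rt hU]
      refine (finrank_gen_le (by omega) hN hC hUN (hPw α hα).1).trans ?_
      rw [← count_rt hU, ← hR, hQ, Multiset.count_filter_of_pos]
      change wf q (f α) - w < 0
      rw [wf_eq hq (hfw α hα)]
      have := (hPw α hα).2
      omega
    · rw [Multiset.count_eq_zero_of_notMem hβ]
      exact Nat.zero_le _
  obtain ⟨Q', hQ'⟩ := Multiset.le_iff_exists_add.1 hle
  have hneg : ∀ x ∈ Q', g x ≤ -1 := by
    intro x hx
    have h1 : x ∈ Q := by rw [hQ']; exact Multiset.mem_add.2 (Or.inr hx)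
    have := (Multiset.mem_filter.1 h1).2
    omega
  have hQs : (Q'.map g).sum ≤ -(Multiset.card Q' : ℤ) := by
    have := Multiset.sum_le_card_nsmul (Q'.map g) (-1) (fun x hx => by
      obtain ⟨y, hy, rfl⟩ := Multiset.mem_map.1 hx
      exact hneg y hy)
    rw [Multiset.card_map] at this
    simpa using this
  have htot : (R.map g).sum = (Q'.map g).sum := by
    have h1 : R = P + (Q + (R.filter fun α => ¬ 0 < g α).filter fun α => ¬ g α < 0) := by
      have h2 : Q = (R.filter fun α => ¬ 0 < g α).filter fun α => g α < 0 := by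
        rw [Multiset.filter_filter]
        refine Multiset.filter_congr fun α _ => ?_
        constructor
        · intro h; exact ⟨h, by omega⟩
        · exact fun h => h.1
      rw [h2, Multiset.filter_add_not, Multiset.filter_add_not]
    have h3 : (((R.filter fun α => ¬ 0 < g α).filter fun α => ¬ g α < 0).map g).sum = 0 := by
      apply Multiset.sum_eq_zero
      intro x hx
      obtain ⟨y, hy, rfl⟩ := Multiset.mem_map.1 hx
      have h4 := Multiset.mem_filter.1 hy
      have h5 := Multiset.mem_filter.1 h4.1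
      omega
    have h4 : ((P.map f).map g).sum = -(P.map g).sum := by
      have h7 : (P.map f).map g = P.map fun α => -g α := by
        rw [Multiset.map_map]
        refine Multiset.map_congr rfl fun α hα => ?_
        change wf q (f α) - w = -g α
        rw [wf_eq hq (hfw α hα)]
        have h5 := (hPw α hα).2
        have h6 : ((g α).toNat : ℤ) = g α := Int.toNat_of_nonneg (by omega)
        omega
      rw [h7, Multiset.sum_map_neg]
    conv_lhs => rw [h1]
    rw [Multiset.map_add, Multiset.sum_add, Multiset.map_add, Multiset.sum_add, h3, hQ',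
      Multiset.map_add, Multiset.sum_add, h4]
    ring
  refine ⟨?_, fun h0 a β hβ => ?_⟩
  · change (R.map g).sum ≤ 0
    rw [htot]
    have : (0 : ℤ) ≤ (Multiset.card Q' : ℤ) := Nat.cast_nonneg _
    omega
  · have h1 : Multiset.card Q' = 0 := by
      have h2 : (R.map g).sum = 0 := h0
      rw [htot] at h2
      omega
    rw [Multiset.card_eq_zero] at h1
    rw [h1, add_zero] at hQ'
    rcases Nat.eq_zero_or_pos a with rfl | ha
    · rw [pow_zero, mul_one]
    · have h2 := hβ.mul_pow (by omega : 0 < q) a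
      rw [show w - (a : ℤ) + 2 * a = w + a by ring] at h2
      apply le_antisymm
      · rw [← count_rt hU, ← count_rt hU, ← hR]
        have h3 : R.count β = Q.count β := by
          rw [hQ, Multiset.count_filter_of_pos]
          change wf q β - w < 0
          rw [wf_eq hq hβ]
          omega
        rw [h3, hQ', hcnt a β hβ]
        exact Multiset.count_le_of_le _ (Multiset.filter_le _ _)
      · have h3 := finrank_gen_le (by omega) hN hC hUN h2
        rwa [mul_div_cancel_right₀ _ (pow_ne_zero _ hq0)] at h3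

end Pool.Agent.K7.H9.SS
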